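import Pool.Agent.Lib_MP_99eb35_ag.Elim

namespace Pool.Agent.MP_99eb35_ag
variable {k : Type*} [Field k] {B : Fin 7 → Fin 7 → Fin 7 → Fin 7 → k}

/-- auxiliary -/
def PZ (B : Fin 7 → Fin 7 → Fin 7 → Fin 7 → k) (f : Fin 4 → Fin 7) : Prop :=
  B (f 0) (f 1) (f 2) (f 3) = 0 ∧ B (f 0) (f 2) (f 1) (f 3) = 0 ∧ B (f 0) (f 3) (f 1) (f 2) = 0

theorem PZ.full (h : Sys B) {f : Fin 4 → Fin 7} (hf : PZ B f) (σ : Equiv.Perm (Fin 4)) :
    B (f (σ 0)) (f (σ 1)) (f (σ 2)) (f (σ 3)) = 0 := by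
  obtain ⟨h1, h2, h3⟩ := hf
  have a1 := h.r1 (f 0) (f 1) (f 2) (f 3)
  have a2 := h.r2 (f 0) (f 1) (f 2) (f 3)
  have a3 := h.r3 (f 0) (f 1) (f 2) (f 3)
  rw [h1, h2] at a1
  rw [h1, h3] at a2
  rw [h2, h3] at a3
  norm_num at a1 a2 a3
  have key : ∀ i j s t : Fin 4, i ≠ j → i ≠ s → i ≠ t → j ≠ s → j ≠ t → s ≠ t →
      B (f i) (f j) (f s) (f t) = 0 := by
    intro i j s t hij his hit hjs hjt hst
    fin_cases i <;> fin_cases j <;> fin_cases s <;> fin_cases t <;>
      simp at hij his hit hjs hjt hst ⊢ <;>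
    first
    | assumption
    | (rw [h.sym]; assumption)
    | (rw [h.alt, neg_eq_zero]; assumption)
    | (rw [h.sym, h.alt, neg_eq_zero]; assumption)
  apply key <;> simp

theorem all_zero [CharZero k] (h : Sys B) (i j s t : Fin 7) : B i j s t = 0 := by
  by_cases hij : i = j
  · rw [hij]; exact h.diag0 j s t
  by_cases his : i = s
  · rw [his]; exact h.diag s j t
  by_cases hit : i = t
  · rw [hit]; exact h.diag3 t j s
  by_cases hjs : j = s
  · rw [hjs]; exact h.diag2 i s t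
  by_cases hjt : j = t
  · rw [hjt]; exact h.diag4 i t s
  by_cases hst : s = t
  · have := h.alt i j s t
    rw [hst] at this ⊢
    linear_combination (1/2) * this
  have hinj : Function.Injective (![i, j, s, t] : Fin 4 → Fin 7) := by
    intro a b hab
    fin_cases a <;> fin_cases b <;> simp_all [eq_comm]
  have hmono := (Tuple.monotone_sort (![i, j, s, t] : Fin 4 → Fin 7)).strictMono_of_injective
    (hinj.comp (Equiv.injective _))
  set σ := Tuple.sort (![i, j, s, t] : Fin 4 → Fin 7) with hσ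
  have hP : PZ B ((![i, j, s, t] : Fin 4 → Fin 7) ∘ σ) :=
    sorted_zero h _ _ _ _ (hmono (by decide : (0 : Fin 4) < 1)) (hmono (by decide : (1 : Fin 4) < 2))
      (hmono (by decide : (2 : Fin 4) < 3))
  have := PZ.full h hP σ.symm
  simpa using this

end Pool.Agent.MP_99eb35_ag
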