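import Pool.Agent.Lib_MP_99eb35_ag.Defs

namespace Pool.Agent.MP_99eb35_ag

open scoped TensorProduct
open Module Polynomial

namespace LineCurve

variable {k : Type*} [Field k] {C : LineCurve k}

variable (C) in
theorem mulSec_add {a b : ℕ} (f : (C.omega a).Sec) (g g' : (C.omega b).Sec) :
    C.mulSec f (g + g') = C.mulSec f g + C.mulSec f g' := Subtype.ext (mul_add _ _ _)

variable (C) in
theorem mulSec_smul {a b : ℕ} (c : k) (f : (C.omega a).Sec) (g : (C.omega b).Sec) :
    C.mulSec f (c • g) = c • C.mulSec f g := Subtype.ext (mul_smul_comm _ _ _)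

variable (C) in
theorem add_mulSec {a b : ℕ} (f f' : (C.omega a).Sec) (g : (C.omega b).Sec) :
    C.mulSec (f + f') g = C.mulSec f g + C.mulSec f' g := Subtype.ext (add_mul _ _ _)

variable (C) in
theorem smul_mulSec {a b : ℕ} (c : k) (f : (C.omega a).Sec) (g : (C.omega b).Sec) :
    C.mulSec (c • f) g = c • C.mulSec f g := Subtype.ext (smul_mul_assoc _ _ _)

variable (C) in
/-- Multiplication of sections `H⁰(ω_C) × H⁰(ω_C^q) → H⁰(ω_C^{q+1})`. -/
noncomputable def mulOmega (q : ℕ) :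
    (C.omega 1).Sec →ₗ[k] (C.omega q).Sec →ₗ[k] (C.omega (q + 1)).Sec :=
  LinearMap.mk₂ k (fun f g => C.mulSec f g) C.add_mulSec C.smul_mulSec C.mulSec_add
    C.mulSec_smul

/-- The coefficients of a section. -/
noncomputable def TFSheaf.coeffs (F : TFSheaf C) :
    F.Sec →ₗ[k] (∀ i : C.Comp, Fin (F.deg i + 1).toNat → k) where
  toFun f i j := (f.1 i).coeff j
  map_add' f g := by
    ext i j
    exact Polynomial.coeff_add _ _ _
  map_smul' c f := by
    ext i j
    exact Polynomial.coeff_smul _ _ _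

theorem TFSheaf.coeffs_injective (F : TFSheaf C) : Function.Injective F.coeffs := by
  intro f g h
  apply Subtype.ext
  funext i
  ext n
  by_cases hn : n < (F.deg i + 1).toNat
  · exact congrFun (congrFun h i) ⟨n, hn⟩
  · have h1 := f.2.1 i
    have h2 := g.2.1 i
    rw [Polynomial.mem_degreeLT] at h1 h2
    rw [Polynomial.coeff_eq_zero_of_degree_lt, Polynomial.coeff_eq_zero_of_degree_lt]
    · exact lt_of_lt_of_le h2 (by exact_mod_cast not_lt.mp hn)
    · exact lt_of_lt_of_le h1 (by exact_mod_cast not_lt.mp hn)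

instance (F : TFSheaf C) : FiniteDimensional k F.Sec :=
  Module.Finite.of_injective F.coeffs F.coeffs_injective

theorem TFSheaf.h0_le (F : TFSheaf C) : F.h0 ≤ ∑ i, ((F.deg i + 1).toNat : ℤ) := by
  have h := LinearMap.finrank_le_finrank_of_injective F.coeffs_injective
  rw [Module.finrank_pi_fintype] at h
  simp only [Module.finrank_fin_fun] at h
  rw [TFSheaf.h0]
  exact_mod_cast h

theorem bddBelow_cliff (tors : Bool) :
    BddBelow {c : ℤ | ∃ F : TFSheaf C, (∀ i, 0 ≤ F.restrDegree tors i ∧ F.restrDegree tors i ≤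
    C.omegaDeg i) ∧ 2 ≤ F.h0 ∧ 2 ≤ F.h1 ∧ c = F.cliff} := by
  refine ⟨(∑ i : C.Comp, (1 - ((C.branches i).card : ℤ))) - Fintype.card C.Node -
    C.chiO Finset.univ - 2 * ∑ i : C.Comp, ((C.omegaDeg i + 1).toNat : ℤ) + 2, ?_⟩
  rintro c ⟨F, hF, -, -, rfl⟩
  have h1 : F.h0 ≤ ∑ i : C.Comp, ((C.omegaDeg i + 1).toNat : ℤ) := by
    refine F.h0_le.trans (Finset.sum_le_sum fun i _ => ?_)
    have h2 := (hF i).2
    have h3 : F.deg i ≤ F.restrDegree tors i := by
      unfold TFSheaf.restrDegree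
      split_ifs <;> omega
    omega
  have h4 : ∑ i : C.Comp, (1 - ((C.branches i).card : ℤ)) ≤ ∑ i, (F.deg i + 1) := by
    refine Finset.sum_le_sum fun i _ => ?_
    have h2 := (hF i).1
    have h5 : (((C.branches i).filter fun x => x.1 ∉ F.glued).card : ℤ) ≤
      (C.branches i).card := by exact_mod_cast Finset.card_filter_le _ _
    have h6 : F.restrDegree tors i ≤ F.deg i + (C.branches i).card := by
      unfold TFSheaf.restrDegree
      split_ifs <;> omega
    omega
  have h7 : (F.glued.card : ℤ) ≤ Fintype.card C.Node := by exact_mod_cast Finset.card_le_univ _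
  simp only [TFSheaf.cliff, TFSheaf.degree, TFSheaf.chi]
  omega

theorem cliff_le (tors : Bool) (F : TFSheaf C)
    (h : ∀ i, 0 ≤ F.restrDegree tors i ∧ F.restrDegree tors i ≤ C.omegaDeg i) (h0 : 2 ≤ F.h0)
    (h1 : 2 ≤ F.h1) : C.cliff tors ≤ F.cliff :=
  csInf_le (bddBelow_cliff tors) ⟨F, h, h0, h1, rfl⟩

theorem TFSheaf.le_h0 (F : TFSheaf C) {n : ℕ} (v : Fin n → F.Sec) (hv : LinearIndependent k v) :
    (n : ℤ) ≤ F.h0 := by
  have := hv.fintype_card_le_finrank
  rw [Fintype.card_fin] at this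
  rw [TFSheaf.h0]
  exact_mod_cast this

end LineCurve

end Pool.Agent.MP_99eb35_ag
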