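import Pool.Agent.Lib_MP_99eb35_ag.Main

namespace Pool.Agent.MP_99eb35_ag

open Module Polynomial

set_option linter.unusedSectionVars false

variable {k : Type*} [Field k] [CharZero k]

/-- The nodes not on the component `0`. -/
def octGlued : Finset (Fin 12) := {4, 5, 6, 7, 8, 9, 10, 11}

/-- The sheaf `𝒪_A ⊕ 𝒪_R` on the octahedral curve, `R` the component `0` and `A` the union of the
other ones. -/
def octF0 (k : Type*) [Field k] [CharZero k] : LineCurve.TFSheaf (oct k) where
  glued := octGlued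
  deg _ := 0
  glue _ := 1
  glue_ne _ := one_ne_zero

/-- The gluing constants of `ω_A`. -/
def octG : Fin 12 → ℚ := ![1, 1, 1, 1, -3, 1, -1, -2, -1 / 2, -1, 1 / 3, -1]

theorem octG_ne : ∀ e, octG e ≠ 0 := by
  intro e
  fin_cases e <;> simp [octG]

/-- The sheaf `ω_A ⊕ ω_R` on the octahedral curve. -/
def octF1 (k : Type*) [Field k] [CharZero k] : LineCurve.TFSheaf (oct k) where
  glued := octGlued
  deg := (![-2, 1, 1, 2, 1, 1] : Fin 6 → ℤ)
  glue := fun e : Fin 12 => (octG e : k)
  glue_ne := fun e : Fin 12 => by exact_mod_cast octG_ne e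

theorem octF0_chi : (octF0 k).chi = -2 := by
  change ∑ i : Fin 6, ((0 : ℤ) + 1) - (octGlued.card : ℤ) = -2
  decide

theorem octF1_chi : (octF1 k).chi = 2 := by
  change ∑ i : Fin 6, ((![-2, 1, 1, 2, 1, 1] : Fin 6 → ℤ) i + 1) - (octGlued.card : ℤ) = 2
  decide

theorem oct_chiO : (oct k).chiO Finset.univ = -6 := by
  change (((Finset.univ : Finset (Fin 6)).card : ℕ) : ℤ) -
    (((Finset.univ.filter fun e : Fin 12 => octComp e false ∈ (Finset.univ : Finset (Fin 6)) ∧
      octComp e true ∈ (Finset.univ : Finset (Fin 6))).card : ℕ) : ℤ) = -6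
  decide

theorem octF0_restr (tors : Bool) (ht : tors = false) (i : Fin 6) :
    0 ≤ (octF0 k).restrDegree tors i ∧ (octF0 k).restrDegree tors i ≤ (oct k).omegaDeg i := by
  subst ht
  rw [oct_omegaDeg]
  have : (octF0 k).restrDegree false i = 0 := by
    simp [LineCurve.TFSheaf.restrDegree, octF0]
  rw [this]
  norm_num

theorem octF1_restr (i : Fin 6) :
    0 ≤ (octF1 k).restrDegree true i ∧ (octF1 k).restrDegree true i ≤ (oct k).omegaDeg i := by
  rw [oct_omegaDeg]
  have h : ∀ i : Fin 6, (![-2, 1, 1, 2, 1, 1] : Fin 6 → ℤ) i +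
      (((((Finset.univ.filter fun x : Fin 12 × Bool => octComp x.1 x.2 = i)).filter
        fun x => x.1 ∉ octGlued).card : ℕ) : ℤ) = 2 := by decide
  have : (octF1 k).restrDegree true i = 2 := by
    rw [← h i]
    rfl
  rw [this]
  norm_num

theorem const_mem : (1 : k[X]) ∈ Polynomial.degreeLT k 1 := by
  rw [Polynomial.mem_degreeLT]
  exact lt_of_le_of_lt Polynomial.degree_one_le (by exact_mod_cast Nat.one_pos)

theorem lin_mem (a b : k) : (Polynomial.C a + Polynomial.C b * X) ∈ Polynomial.degreeLT k 2 := by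
  rw [Polynomial.mem_degreeLT]
  refine lt_of_le_of_lt (Polynomial.degree_add_le _ _) (max_lt ?_ ?_)
  · exact lt_of_le_of_lt Polynomial.degree_C_le (by exact_mod_cast Nat.two_pos)
  · exact lt_of_le_of_lt (Polynomial.degree_C_mul_X_le b) (by exact_mod_cast Nat.one_lt_two)

theorem quad_mem (a b c : k) :
    (Polynomial.C a + Polynomial.C b * X + Polynomial.C c * X ^ 2) ∈ Polynomial.degreeLT k 3 := by
  rw [Polynomial.mem_degreeLT]
  refine lt_of_le_of_lt (Polynomial.degree_add_le _ _) (max_lt ?_ ?_)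
  · have h := lin_mem a b
    rw [Polynomial.mem_degreeLT] at h
    exact lt_trans h (by exact_mod_cast Nat.lt_succ_self 2)
  · exact lt_of_le_of_lt (Polynomial.degree_C_mul_X_pow_le 2 c)
      (by exact_mod_cast Nat.lt_succ_self 2)

theorem glued_ge (e : Fin 12) (he : e ∈ octGlued) : e = 4 ∨ e = 5 ∨ e = 6 ∨ e = 7 ∨ e = 8 ∨
    e = 9 ∨ e = 10 ∨ e = 11 := by
  simpa [octGlued] using he

/-- The two obvious sections of `𝒪_A ⊕ 𝒪_R`. -/
noncomputable def octS0 (k : Type*) [Field k] : Fin 2 → Fin 6 → k[X] :=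
  ![![1, 0, 0, 0, 0, 0], ![0, 1, 1, 1, 1, 1]]

theorem octS0_mem (j : Fin 2) : octS0 k j ∈ (octF0 k).H0 := by
  have h1 : ∀ i : Fin 6, octS0 k j i ∈ Polynomial.degreeLT k 1 := by
    intro i
    fin_cases j <;> fin_cases i <;>
      first
      | exact const_mem
      | exact Submodule.zero_mem _
  have h2 : ∀ e : Fin 12, e ∈ octGlued → (octS0 k j (octComp e true)).eval (octPt e true : k) =
      1 * (octS0 k j (octComp e false)).eval (octPt e false : k) := by
    intro e he
    rcases glued_ge e he with h | h | h | h | h | h | h | h <;> subst h <;> fin_cases j <;>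
      simp [octS0, octComp]
  exact ⟨h1, h2⟩

theorem octS0_indep :
    LinearIndependent k (fun j => (⟨octS0 k j, octS0_mem j⟩ : (octF0 k).Sec)) := by
  apply LinearIndependent.of_pairwise_dual_eq_zero_one _
    (![LineCurve.evFun (octF0 k) (0 : Fin 6) 0, LineCurve.evFun (octF0 k) (1 : Fin 6) 0])
  · intro i j hij
    fin_cases i <;> fin_cases j
    · exact absurd rfl hij
    · change (octS0 k 1 0).eval 0 = 0
      simp [octS0]
    · change (octS0 k 0 1).eval 0 = 0
      simp [octS0]
    · exact absurd rfl hij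
  · intro i
    fin_cases i
    · change (octS0 k 0 0).eval 0 = 1
      simp [octS0]
    · change (octS0 k 1 1).eval 0 = 1
      simp [octS0]

theorem octF0_cliff : (oct k).cliff false ≤ 2 := by
  have h2 : 2 ≤ (octF0 k).h0 := LineCurve.TFSheaf.le_h0 (octF0 k) _ octS0_indep
  have h3 : (octF0 k).h1 = (octF0 k).h0 + 2 := by
    rw [LineCurve.TFSheaf.h1, octF0_chi]; ring
  have h4 : (octF0 k).cliff = 6 - 2 * (octF0 k).h0 := by
    rw [LineCurve.TFSheaf.cliff, LineCurve.TFSheaf.degree, octF0_chi, oct_chiO]; ring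
  have h5 := LineCurve.cliff_le false (octF0 k) (octF0_restr false rfl) h2 (by omega)
  omega

/-- Four sections of `ω_A`. -/
noncomputable def octS1 (k : Type*) [Field k] : Fin 4 → Fin 6 → k[X] :=
  ![![0, C 2 + C (-2) * X, C 0 + C (-3) * X, C 0 + C (-1) * X + C (-1) * X ^ 2, 0, 0],
    ![0, 0, C 2 + C (-1) * X, C 2 + C 0 * X + C (-2) * X ^ 2, C (-1) + C 1 * X, 0],
    ![0, 0, 0, C 2 + C (-3) * X + C 1 * X ^ 2, C 0 + C 2 * X, C 0 + C 2 * X],
    ![0, C 0 + C 1 * X, 0, C 0 + C 4 * X + C (-2) * X ^ 2, 0, C (-1) + C (-1) * X]]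

theorem octS1_mem (j : Fin 4) : octS1 k j ∈ (octF1 k).H0 := by
  have h1 : ∀ i : Fin 6, octS1 k j i ∈
      Polynomial.degreeLT k ((![-2, 1, 1, 2, 1, 1] : Fin 6 → ℤ) i + 1).toNat := by
    intro i
    fin_cases j <;> fin_cases i <;>
      first
      | exact Submodule.zero_mem _
      | exact lin_mem _ _
      | exact quad_mem _ _ _
  have h2 : ∀ e : Fin 12, e ∈ octGlued → (octS1 k j (octComp e true)).eval (octPt e true : k) =
      (octG e : k) * (octS1 k j (octComp e false)).eval (octPt e false : k) := by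
    intro e he
    rcases glued_ge e he with h | h | h | h | h | h | h | h <;> subst h <;> fin_cases j <;>
      simp [octS1, octComp, octPt, octG] <;> norm_num
  exact ⟨h1, h2⟩

theorem octS1_indep :
    LinearIndependent k (fun j => (⟨octS1 k j, octS1_mem j⟩ : (octF1 k).Sec)) := by
  apply LinearIndependent.of_pairwise_dual_eq_zero_one _
    (![(1/2 : k) • LineCurve.evFun (octF1 k) (1 : Fin 6) 0,
      (1/2 : k) • LineCurve.evFun (octF1 k) (2 : Fin 6) 0,
      (1/2 : k) • LineCurve.evFun (octF1 k) (4 : Fin 6) 1,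
      LineCurve.evFun (octF1 k) (1 : Fin 6) 1])
  · have h : ∀ i j : Fin 4, i ≠ j → (![(1/2 : k) * (octS1 k j 1).eval 0,
        (1/2 : k) * (octS1 k j 2).eval 0, (1/2 : k) * (octS1 k j 4).eval 1,
        (octS1 k j 1).eval 1] : Fin 4 → k) i = 0 := by
      intro i j hij
      fin_cases i <;> fin_cases j <;> first | exact absurd rfl hij | simp [octS1]
    intro i j hij
    refine Eq.trans ?_ (h i j hij)
    fin_cases i <;> rfl
  · have h : ∀ i : Fin 4, (![(1/2 : k) * (octS1 k i 1).eval 0,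
        (1/2 : k) * (octS1 k i 2).eval 0, (1/2 : k) * (octS1 k i 4).eval 1,
        (octS1 k i 1).eval 1] : Fin 4 → k) i = 1 := by
      intro i
      fin_cases i <;> simp [octS1]
    intro i
    refine Eq.trans ?_ (h i)
    fin_cases i <;> rfl

theorem octF1_cliff : (oct k).cliff true ≤ 2 := by
  have h2 : ((4 : ℕ) : ℤ) ≤ (octF1 k).h0 := LineCurve.TFSheaf.le_h0 (octF1 k) _ octS1_indep
  have h3 : (octF1 k).h1 = (octF1 k).h0 - 2 := by
    rw [LineCurve.TFSheaf.h1, octF1_chi]
  have h4 : (octF1 k).cliff = 10 - 2 * (octF1 k).h0 := by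
    rw [LineCurve.TFSheaf.cliff, LineCurve.TFSheaf.degree, octF1_chi, oct_chiO]; ring
  have h5 := LineCurve.cliff_le true (octF1 k) octF1_restr (by omega) (by omega)
  omega

end Pool.Agent.MP_99eb35_ag
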