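import Pool.Agent.Lib_MP_99eb35_ag.Koszul
import Pool.Agent.Lib_MP_99eb35_ag.AllZero

namespace Pool.Agent.MP_99eb35_ag

open scoped TensorProduct
open Module

variable {k : Type*} [Field k]

section ext

variable {V : Type*} [AddCommGroup V] [Module k V]

theorem alt3_swap01 {T : Type*} [AddCommGroup T] [Module k T] (A : V [⋀^Fin 3]→ₗ[k] T)
    (u v w : V) : A ![u, v, w] = - A ![v, u, w] := by
  have := A.map_swap ![v, u, w] (show (0 : Fin 3) ≠ 1 by decide)
  rw [← this]
  congr 1
  ext i
  fin_cases i <;> simp [Equiv.swap_apply_def]

theorem alt3_swap12 {T : Type*} [AddCommGroup T] [Module k T] (A : V [⋀^Fin 3]→ₗ[k] T)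
    (u v w : V) : A ![u, v, w] = - A ![u, w, v] := by
  have := A.map_swap ![u, w, v] (show (1 : Fin 3) ≠ 2 by decide)
  rw [← this]
  congr 1
  ext i
  fin_cases i <;> simp [Equiv.swap_apply_def]

/-- The quadrilinear form `(u, v, w, y) ↦ A(u,v,w)(y) + A(y,v,w)(u)` vanishes as soon as it
vanishes on a spanning family. -/
theorem alt_ext (A : V [⋀^Fin 3]→ₗ[k] (V →ₗ[k] k)) {n : ℕ} (φ : Fin n → V)
    (hφ : Submodule.span k (Set.range φ) = ⊤)
    (H : ∀ i l s t, A ![φ i, φ s, φ t] (φ l) + A ![φ l, φ s, φ t] (φ i) = 0) (u y v w : V) :
    A ![u, v, w] y + A ![y, v, w] u = 0 := by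
  have top : ∀ z : V, z ∈ Submodule.span k (Set.range φ) := fun z => by rw [hφ]; trivial
  -- step 1
  have S1 : ∀ y : V, ∀ i s t, A ![φ i, φ s, φ t] y + A ![y, φ s, φ t] (φ i) = 0 := by
    intro y
    induction top y using Submodule.span_induction with
    | mem y hy => obtain ⟨l, rfl⟩ := hy; exact fun i s t => H i l s t
    | zero =>
      intro i s t
      have : A ![0, φ s, φ t] = 0 := A.map_coord_zero 0 (by simp)
      simp [this]
    | add y z _ _ hy hz =>
      intro i s t
      have : A ![y + z, φ s, φ t] = A ![y, φ s, φ t] + A ![z, φ s, φ t] :=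
        A.toMultilinearMap.cons_add _ _ _
      rw [this, map_add, LinearMap.add_apply]
      linear_combination hy i s t + hz i s t
    | smul c y _ hy =>
      intro i s t
      have : A ![c • y, φ s, φ t] = c • A ![y, φ s, φ t] :=
        A.toMultilinearMap.cons_smul _ _ _
      rw [this, map_smul, LinearMap.smul_apply, smul_eq_mul, smul_eq_mul]
      linear_combination c * hy i s t
  have S2 : ∀ u y : V, ∀ s t, A ![u, φ s, φ t] y + A ![y, φ s, φ t] u = 0 := by
    intro u
    induction top u using Submodule.span_induction with
    | mem u hu => obtain ⟨l, rfl⟩ := hu; exact fun y s t => S1 y l s t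
    | zero =>
      intro y s t
      have : A ![0, φ s, φ t] = 0 := A.map_coord_zero 0 (by simp)
      simp [this]
    | add u z _ _ hu hz =>
      intro y s t
      have : A ![u + z, φ s, φ t] = A ![u, φ s, φ t] + A ![z, φ s, φ t] :=
        A.toMultilinearMap.cons_add _ _ _
      rw [this, map_add, LinearMap.add_apply]
      linear_combination hu y s t + hz y s t
    | smul c u _ hu =>
      intro y s t
      have : A ![c • u, φ s, φ t] = c • A ![u, φ s, φ t] :=
        A.toMultilinearMap.cons_smul _ _ _
      rw [this, map_smul, LinearMap.smul_apply, smul_eq_mul, smul_eq_mul]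
      linear_combination c * hu y s t
  have S3 : ∀ v u y : V, ∀ t, A ![u, v, φ t] y + A ![y, v, φ t] u = 0 := by
    intro v
    induction top v using Submodule.span_induction with
    | mem v hv => obtain ⟨l, rfl⟩ := hv; exact fun u y t => S2 u y l t
    | zero =>
      intro u y t
      have h1 : A ![u, 0, φ t] = 0 := A.map_coord_zero 1 (by simp)
      have h2 : A ![y, 0, φ t] = 0 := A.map_coord_zero 1 (by simp)
      simp [h1, h2]
    | add v z _ _ hv hz =>
      intro u y t
      have : ∀ u, A ![u, v + z, φ t] = A ![u, v, φ t] + A ![u, z, φ t] := by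
        intro u
        rw [alt3_swap01, alt3_swap01 A u v, alt3_swap01 A u z,
          show A ![v + z, u, φ t] = A ![v, u, φ t] + A ![z, u, φ t] from
          A.toMultilinearMap.cons_add _ _ _]
        abel
      rw [this, this, LinearMap.add_apply, LinearMap.add_apply]
      linear_combination hv u y t + hz u y t
    | smul c v _ hv =>
      intro u y t
      have : ∀ u, A ![u, c • v, φ t] = c • A ![u, v, φ t] := by
        intro u
        rw [alt3_swap01, alt3_swap01 A u v,
          show A ![c • v, u, φ t] = c • A ![v, u, φ t] from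
          A.toMultilinearMap.cons_smul _ _ _, smul_neg]
      rw [this, this, LinearMap.smul_apply, LinearMap.smul_apply, smul_eq_mul, smul_eq_mul]
      linear_combination c * hv u y t
  have S4 : ∀ w v u y : V, A ![u, v, w] y + A ![y, v, w] u = 0 := by
    intro w
    induction top w using Submodule.span_induction with
    | mem w hw => obtain ⟨l, rfl⟩ := hw; exact fun v u y => S3 v u y l
    | zero =>
      intro v u y
      have h1 : A ![u, v, 0] = 0 := A.map_coord_zero 2 (by simp)
      have h2 : A ![y, v, 0] = 0 := A.map_coord_zero 2 (by simp)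
      simp [h1, h2]
    | add w z _ _ hw hz =>
      intro v u y
      have : ∀ u, A ![u, v, w + z] = A ![u, v, w] + A ![u, v, z] := by
        intro u
        rw [alt3_swap12, alt3_swap12 A u v w, alt3_swap12 A u v z, alt3_swap01,
          alt3_swap01 A u w, alt3_swap01 A u z,
          show A ![w + z, u, v] = A ![w, u, v] + A ![z, u, v] from
          A.toMultilinearMap.cons_add _ _ _]
        abel
      rw [this, this, LinearMap.add_apply, LinearMap.add_apply]
      linear_combination hw v u y + hz v u y
    | smul c w _ hw =>
      intro v u y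
      have : ∀ u, A ![u, v, c • w] = c • A ![u, v, w] := by
        intro u
        rw [alt3_swap12, alt3_swap12 A u v w, alt3_swap01, alt3_swap01 A u w,
          show A ![c • w, u, v] = c • A ![w, u, v] from
          A.toMultilinearMap.cons_smul _ _ _]
        simp
      rw [this, this, LinearMap.smul_apply, LinearMap.smul_apply, smul_eq_mul, smul_eq_mul]
      linear_combination c * hw v u y
  exact S4 w v u y

end ext

end Pool.Agent.MP_99eb35_ag
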