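import Mathlib

/-!
# Nodal curves with rational components, their rank one torsion free sheaves, Clifford index
# and Koszul cohomology

Everything is for a field `k`.  A connected nodal curve `C` all of whose irreducible components
are projective lines is given by gluing data: finitely many copies of `ℙ¹` (with an affine
coordinate) and finitely many nodes, each obtained by gluing a point of one line transversally
to a point of another line.
-/

namespace Pool.Agent.MP_99eb35_ag

open scoped TensorProduct
open Module Polynomial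

/-! ### Koszul cohomology -/

section Koszul

variable {k : Type*} [Field k] {W M N M₀ M₁ M₂ : Type*} [AddCommGroup W] [Module k W]
  [AddCommGroup M] [Module k M] [AddCommGroup N] [Module k N] [AddCommGroup M₀] [Module k M₀]
  [AddCommGroup M₁] [Module k M₁] [AddCommGroup M₂] [Module k M₂]

/-- `d` is the Koszul differential `⋀^{p+1} W ⊗ M → ⋀^p W ⊗ N` of the bilinear map
`mul : W × M → N`: `d ((w₀ ∧ ⋯ ∧ w_p) ⊗ m) = ∑ i, (-1)^i (w₀ ∧ ⋯ ŵᵢ ⋯ ∧ w_p) ⊗ (wᵢ * m)`. -/
def IsKoszulDiff (mul : W → M → N) (p : ℕ)
    (d : ((⋀[k]^(p + 1) W) ⊗[k] M) →ₗ[k] ((⋀[k]^p W) ⊗[k] N)) : Prop :=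
  ∀ (w : Fin (p + 1) → W) (m : M), d (exteriorPower.ιMulti k (p + 1) w ⊗ₜ[k] m) =
    ∑ i : Fin (p + 1), (-1 : k) ^ (i : ℕ) •
      (exteriorPower.ιMulti k p (i.removeNth w) ⊗ₜ[k] mul (w i) m)

variable (k) in
/-- The Koszul complex `⋀^{p+2} W ⊗ M₀ → ⋀^{p+1} W ⊗ M₁ → ⋀^p W ⊗ M₂` is exact at its middle
term (the two maps are the Koszul differentials of the bilinear maps `mul₀ : W × M₀ → M₁` and
`mul₁ : W × M₁ → M₂`). -/
def KoszulExact (mul₀ : W → M₀ → M₁) (mul₁ : W → M₁ → M₂) (p : ℕ) : Prop :=
  ∃ (d : ((⋀[k]^(p + 2) W) ⊗[k] M₀) →ₗ[k] ((⋀[k]^(p + 1) W) ⊗[k] M₁))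
    (d' : ((⋀[k]^(p + 1) W) ⊗[k] M₁) →ₗ[k] ((⋀[k]^p W) ⊗[k] M₂)),
    IsKoszulDiff mul₀ (p + 1) d ∧ IsKoszulDiff mul₁ p d' ∧ Function.Exact d d'

end Koszul

/-! ### The curves -/

/-- Gluing data of a nodal curve `C` over `k` all of whose irreducible components are projective
lines: `Comp` indexes the components (copies of `ℙ¹_k`), `Node` indexes the nodes; the node `e`
is obtained by gluing transversally the point with affine coordinate `pt e false` on the line
`comp e false` to the point with affine coordinate `pt e true` on the line `comp e true`.  The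
two branches of a node lie on different components, and different branches of nodes on one
component are different points of it. -/
structure LineCurve (k : Type*) [Field k] where
  /-- the irreducible components -/
  Comp : Type
  /-- the nodes -/
  Node : Type
  [fintypeComp : Fintype Comp]
  [fintypeNode : Fintype Node]
  [decEqComp : DecidableEq Comp]
  [decEqNode : DecidableEq Node]
  /-- the component containing a branch of a node -/
  comp : Node → Bool → Comp
  /-- the affine coordinate of a branch of a node on its component -/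
  pt : Node → Bool → k
  comp_ne : ∀ e, comp e false ≠ comp e true
  pt_inj : ∀ e b e' b', comp e b = comp e' b' → pt e b = pt e' b' → e = e' ∧ b = b'

attribute [instance] LineCurve.fintypeComp LineCurve.fintypeNode LineCurve.decEqComp
  LineCurve.decEqNode

namespace LineCurve

variable {k : Type*} [Field k] (C : LineCurve k)

/-- The branches of nodes lying on the component `i`. -/
def branches (i : C.Comp) : Finset (C.Node × Bool) :=
  Finset.univ.filter fun x => C.comp x.1 x.2 = i

/-- The degree of the dualizing sheaf `ω_C` on the component `i`: `-2` plus the number of nodes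
on it. -/
def omegaDeg (i : C.Comp) : ℤ := (C.branches i).card - 2

/-- The nodes of `C` both branches of which lie on the subcurve `B`. -/
def nodesOf (B : Finset C.Comp) : Finset C.Node :=
  Finset.univ.filter fun e => C.comp e false ∈ B ∧ C.comp e true ∈ B

/-- `χ(𝒪_B)` of the subcurve `B`: number of components minus number of nodes. -/
def chiO (B : Finset C.Comp) : ℤ := B.card - (C.nodesOf B).card

/-- The arithmetic genus `p_a(B) = 1 - χ(𝒪_B)` of a subcurve. -/
def arithGenus (B : Finset C.Comp) : ℤ := 1 - C.chiO B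

/-- The intersection number `A · B = deg_B(ω_C) - (2 p_a(B) - 2)`, `A` the complement of `B`. -/
def inter (B : Finset C.Comp) : ℤ := ∑ i ∈ B, C.omegaDeg i - (2 * C.arithGenus B - 2)

/-- `C` is `m`-connected: `A · B ≥ m` for every decomposition `C = A ∪ B` into subcurves without
common components. -/
def IsMConnected (m : ℤ) : Prop :=
  ∀ B : Finset C.Comp, B.Nonempty → B ≠ Finset.univ → m ≤ C.inter B

/-- `C` is connected. -/
def IsConnected : Prop :=
  Nonempty C.Comp ∧ ∀ B : Finset C.Comp, B.Nonempty → B ≠ Finset.univ →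
    ∃ e, (C.comp e false ∈ B ∧ C.comp e true ∉ B) ∨ (C.comp e false ∉ B ∧ C.comp e true ∈ B)

/-- `C` is hyperelliptic: there is a finite morphism `C → ℙ¹` of degree `2`.  A morphism
`C → ℙ¹` is a family of morphisms `(s i : t i) : ℙ¹ → ℙ¹`, one for each component, given by
coprime polynomials and agreeing at the nodes; its degree on the component `i` is the maximum
of the degrees of `s i` and `t i`, and it is finite iff all these degrees are positive. -/
def IsHyperelliptic : Prop :=
  ∃ s t : C.Comp → k[X], (∀ i, IsCoprime (s i) (t i)) ∧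
    (∀ e, (s (C.comp e false)).eval (C.pt e false) * (t (C.comp e true)).eval (C.pt e true) =
      (t (C.comp e false)).eval (C.pt e false) * (s (C.comp e true)).eval (C.pt e true)) ∧
    (∀ i, 0 < max (s i).natDegree (t i).natDegree) ∧
    ∑ i, max (s i).natDegree (t i).natDegree = 2

/-! ### Rank one torsion free sheaves -/

/-- A rank one torsion free sheaf `F` on the nodal curve `C`: the push-forward of a line bundle
on the partial normalization of `C` at the nodes which are not in `glued` (`F` is locally free
exactly at the nodes in `glued`).  The line bundle has degree `deg i` on the component `i`, and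
its fibres are identified at the node `e ∈ glued` through the constant `glue e`. -/
structure TFSheaf where
  /-- the nodes at which `F` is locally free -/
  glued : Finset C.Node
  /-- the degree of the line bundle on each component of the partial normalization -/
  deg : C.Comp → ℤ
  /-- the gluing constants -/
  glue : C.Node → k
  glue_ne : ∀ e, glue e ≠ 0

variable {C}

/-- `H⁰(C, F)`: families of sections of `𝒪(deg i)` on the components `ℙ¹` (polynomials of degree
at most `deg i`) which match at the nodes in `glued`. -/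
def TFSheaf.H0 (F : TFSheaf C) : Submodule k (C.Comp → k[X]) where
  carrier := {f | (∀ i, f i ∈ Polynomial.degreeLT k (F.deg i + 1).toNat) ∧
    ∀ e ∈ F.glued, (f (C.comp e true)).eval (C.pt e true) =
      F.glue e * (f (C.comp e false)).eval (C.pt e false)}
  zero_mem' := by simp
  add_mem' := by
    rintro f g ⟨hf, hf'⟩ ⟨hg, hg'⟩
    refine ⟨fun i => Submodule.add_mem _ (hf i) (hg i), fun e he => ?_⟩
    simp [hf' e he, hg' e he, mul_add]
  smul_mem' := by
    rintro c f ⟨hf, hf'⟩
    refine ⟨fun i => Submodule.smul_mem _ c (hf i), fun e he => ?_⟩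
    simp [hf' e he]
    ring

/-- `H⁰(C, F)` as a vector space. -/
def TFSheaf.Sec (F : TFSheaf C) : Type _ := ↥F.H0

noncomputable instance TFSheaf.instAddCommGroupSec (F : TFSheaf C) : AddCommGroup F.Sec :=
  Submodule.addCommGroup F.H0

noncomputable instance TFSheaf.instModuleSec (F : TFSheaf C) : Module k F.Sec :=
  Submodule.module F.H0

/-- `h⁰(F)`. -/
noncomputable def TFSheaf.h0 (F : TFSheaf C) : ℤ := Module.finrank k F.Sec

/-- `χ(F) = ∑ (deg i + 1) - #glued`. -/
def TFSheaf.chi (F : TFSheaf C) : ℤ := ∑ i, (F.deg i + 1) - F.glued.card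

/-- `h¹(F) = h⁰(F) - χ(F)`. -/
noncomputable def TFSheaf.h1 (F : TFSheaf C) : ℤ := F.h0 - F.chi

/-- `deg F = χ(F) - χ(𝒪_C)`. -/
def TFSheaf.degree (F : TFSheaf C) : ℤ := F.chi - C.chiO Finset.univ

/-- The Clifford index `deg F - 2 h⁰(F) + 2` of the sheaf `F`. -/
noncomputable def TFSheaf.cliff (F : TFSheaf C) : ℤ := F.degree - 2 * F.h0 + 2

/-- `deg F_{|C_i} = χ(F_{|C_i}) - χ(𝒪_{C_i})`, where `F_{|C_i}` is the restriction of `F` to the
component `C_i` modulo torsion (`tors = false`), respectively the full restriction
`F ⊗ 𝒪_{C_i}`, which has a torsion part of length one at every node of `C_i` where `F` is not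
locally free (`tors = true`). -/
def TFSheaf.restrDegree (F : TFSheaf C) (tors : Bool) (i : C.Comp) : ℤ :=
  F.deg i + if tors then (((C.branches i).filter fun x => x.1 ∉ F.glued).card : ℤ) else 0

variable (C)

/-- The Clifford index of `C`: the minimum of `Cliff(F)` over the rank one torsion free sheaves
`F` with `0 ≤ deg F_{|C_i} ≤ deg ω_{C|C_i}` for all `i`, `h⁰(F) ≥ 2` and `h¹(F) ≥ 2`; the
parameter `tors` selects the meaning of `F_{|C_i}`, see `TFSheaf.restrDegree`. -/
noncomputable def cliff (tors : Bool) : ℤ :=
  sInf {c : ℤ | ∃ F : TFSheaf C, (∀ i, 0 ≤ F.restrDegree tors i ∧ F.restrDegree tors i ≤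
    C.omegaDeg i) ∧ 2 ≤ F.h0 ∧ 2 ≤ F.h1 ∧ c = F.cliff}

/-! ### The dualizing sheaf and Koszul cohomology -/

/-- The product of the differences `x_b - x_{b'}`, `b'` running through the other branches on the
component of the branch `b = (e, s)`. -/
def diffProd (e : C.Node) (s : Bool) : k :=
  ∏ x ∈ (C.branches (C.comp e s)).erase (e, s), (C.pt e s - C.pt x.1 x.2)

theorem diffProd_ne (e : C.Node) (s : Bool) : C.diffProd e s ≠ 0 := by
  rw [diffProd, Finset.prod_ne_zero_iff]
  rintro ⟨e', s'⟩ hx h
  rw [Finset.mem_erase] at hx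
  have h2 : C.comp e' s' = C.comp e s := by simpa [branches] using hx.2
  have h3 := C.pt_inj e s e' s' h2.symm (sub_eq_zero.mp h)
  exact hx.1 (by rw [h3.1, h3.2])

/-- The sheaf `ω_C^{⊗ q}`.  A section of `ω_C` on the component `i` is a differential form
`f dx / ∏_b (x - x_b)`, `b` running through the branches on `i`, with `f` a polynomial of degree
at most `omegaDeg i`, whose residue at `x_b` is `f(x_b) / diffProd b`; at every node the two
residues are opposite.  Sections of `ω_C^q` are described in the same way by polynomials `f` of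
degree at most `q * omegaDeg i`, with `f(x_b) / (diffProd b)^q` at the two branches of a node
differing by the factor `(-1)^q`. -/
noncomputable def omega (q : ℕ) : TFSheaf C where
  glued := Finset.univ
  deg i := q * C.omegaDeg i
  glue e := (-(C.diffProd e true) / C.diffProd e false) ^ q
  glue_ne e := pow_ne_zero _ (div_ne_zero (neg_ne_zero.mpr (C.diffProd_ne e true))
    (C.diffProd_ne e false))

theorem mul_mem_omega {a b : ℕ} {f g : C.Comp → k[X]} (hf : f ∈ (C.omega a).H0)
    (hg : g ∈ (C.omega b).H0) : f * g ∈ (C.omega (b + a)).H0 := by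
  refine ⟨fun i => ?_, fun e he => ?_⟩
  · have h1 := hf.1 i
    have h2 := hg.1 i
    rw [Polynomial.mem_degreeLT] at h1 h2 ⊢
    rw [Pi.mul_apply]
    by_cases f0 : f i = 0
    · rw [f0, zero_mul, Polynomial.degree_zero]
      exact WithBot.bot_lt_coe _
    by_cases g0 : g i = 0
    · rw [g0, mul_zero, Polynomial.degree_zero]
      exact WithBot.bot_lt_coe _
    rw [Polynomial.degree_eq_natDegree f0, Nat.cast_lt] at h1
    rw [Polynomial.degree_eq_natDegree g0, Nat.cast_lt] at h2
    rw [Polynomial.degree_eq_natDegree (mul_ne_zero f0 g0), Nat.cast_lt,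
      Polynomial.natDegree_mul f0 g0]
    simp only [omega] at h1 h2 ⊢
    push_cast
    have e1 : ((b : ℤ) + a) * C.omegaDeg i = b * C.omegaDeg i + a * C.omegaDeg i := by ring
    rw [e1]
    omega
  · have h1 := hf.2 e (by simp [omega])
    have h2 := hg.2 e (by simp [omega])
    simp only [Pi.mul_apply, Polynomial.eval_mul]
    rw [h1, h2]
    simp only [omega, pow_add]
    ring

/-- The product of a section of `ω_C^a` and a section of `ω_C^b`. -/
noncomputable def mulSec {a b : ℕ} (f : (C.omega a).Sec) (g : (C.omega b).Sec) : (C.omega (b + a)).Sec :=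
  ⟨f.1 * g.1, C.mul_mem_omega f.2 g.2⟩

/-- `K_{p+1,q+1}(C, ω_C) = 0`: the complex
`⋀^{p+2} H⁰(ω_C) ⊗ H⁰(ω_C^q) → ⋀^{p+1} H⁰(ω_C) ⊗ H⁰(ω_C^{q+1}) → ⋀^p H⁰(ω_C) ⊗ H⁰(ω_C^{q+2})`
is exact at its middle term. -/
def KoszulVanishes (p q : ℕ) : Prop :=
  KoszulExact k (fun (f : (C.omega 1).Sec) (g : (C.omega q).Sec) => C.mulSec f g)
    (fun (f : (C.omega 1).Sec) (g : (C.omega (q + 1)).Sec) => C.mulSec f g) p

end LineCurve

end Pool.Agent.MP_99eb35_ag
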