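import Mathlib

/-!
Generated linear algebra: the linear system expressing `K_{3,1} = 0` for the octahedral curve.
-/

namespace Pool.Agent.MP_99eb35_ag

variable {k : Type*} [Field k]

/-- The linear conditions on the polarised contractions `B i l j k` of a Koszul cycle. -/
structure Sys (B : Fin 7 → Fin 7 → Fin 7 → Fin 7 → k) : Prop where
  sym : ∀ i l j m, B i l j m = B l i j m
  alt : ∀ i l j m, B i l j m = - B i l m j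
  diag0 : ∀ i l m, B i i l m = 0
  diag : ∀ i l m, B i l i m = 0
  cyc : ∀ i j l m, B i j l m + B i l j m + B j l i m = 0
  p7 : ∀ s t, 1 * B 0 1 s t + (-1) * B 0 2 s t + 1 * B 0 4 s t + 1 * B 0 5 s t + (-1) * B 1 2 s t + 1 * B 1 4 s t + 1 * B 1 5 s t + (-1) * B 2 4 s t + (-1) * B 2 5 s t + 1 * B 4 5 s t = 0
  p8 : ∀ s t, (-1) * B 0 2 s t + (-1) * B 0 3 s t + 1 * B 2 3 s t = 0
  p9 : ∀ s t, 1 * B 3 4 s t + (-1) * B 3 6 s t + (-1) * B 4 6 s t = 0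
  p10 : ∀ s t, 1 * B 1 5 s t + 1 * B 1 6 s t + 1 * B 5 6 s t = 0
  p11 : ∀ s t, (-1) * B 2 4 s t + (-1) * B 2 5 s t + 1 * B 4 5 s t = 0
  p12 : ∀ s t, (-2) * B 0 1 s t + (-1) * B 0 2 s t + (-2) * B 0 3 s t + (-1) * B 0 4 s t + (-2) * B 0 5 s t + (-1) * B 0 6 s t + 2 * B 1 2 s t + 4 * B 1 3 s t + 2 * B 1 4 s t + 4 * B 1 5 s t + 2 * B 1 6 s t + 2 * B 2 3 s t + 1 * B 2 4 s t + 2 * B 2 5 s t + 1 * B 2 6 s t + 2 * B 3 4 s t + 4 * B 3 5 s t + 2 * B 3 6 s t + 2 * B 4 5 s t + 1 * B 4 6 s t + 2 * B 5 6 s t = 0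
  p13 : ∀ s t, 2 * B 0 1 s t + (-3) * B 0 2 s t + 3 * B 0 4 s t + 3 * B 0 5 s t + (-6) * B 1 2 s t + 6 * B 1 4 s t + 6 * B 1 5 s t + (-9) * B 2 4 s t + (-9) * B 2 5 s t + 9 * B 4 5 s t = 0
  p14 : ∀ s t, 2 * B 0 2 s t + 1 * B 0 3 s t + 2 * B 2 3 s t = 0
  p15 : ∀ s t, 1 * B 2 4 s t + 2 * B 2 5 s t + 2 * B 4 5 s t = 0
  p16 : ∀ s t, 6 * B 3 4 s t + (-2) * B 3 6 s t + (-3) * B 4 6 s t = 0
  p17 : ∀ s t, 2 * B 1 5 s t + 6 * B 1 6 s t + 3 * B 5 6 s t = 0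

variable {B : Fin 7 → Fin 7 → Fin 7 → Fin 7 → k}

theorem Sys.diag2 (h : Sys B) (i l m) : B i l l m = 0 := by rw [h.sym]; exact h.diag l i m
theorem Sys.diag3 (h : Sys B) (i l m) : B i l m i = 0 := by rw [h.alt, h.diag, neg_zero]
theorem Sys.diag4 (h : Sys B) (i l m) : B i l m l = 0 := by rw [h.alt, h.diag2, neg_zero]
theorem Sys.r1 (h : Sys B) (a b c d) : B b c a d = - B a b c d - B a c b d := by
  linear_combination h.cyc a b c d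
theorem Sys.r2 (h : Sys B) (a b c d) : B b d a c = B a b c d - B a d b c := by
  linear_combination h.cyc a b d c - h.alt a b c d
theorem Sys.r3 (h : Sys B) (a b c d) : B c d a b = B a c b d + B a d b c := by
  linear_combination h.cyc a c d b - h.alt a c b d - h.alt a d b c

set_option linter.unusedSectionVars false
variable [CharZero k]

theorem q0 (h : Sys B) : 1 * B 0 3 1 2 = 0 := by
  linear_combination ((-1)) * (h.p8 1 2 - (-1) * h.diag4 0 2 1 - 1 * h.diag3 2 3 1)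
theorem q1 (h : Sys B) : 1 * B 0 2 1 3 = 0 := by
  linear_combination ((-1)) * (h.p8 1 3 - (-1) * h.diag4 0 3 1 - 1 * h.diag4 2 3 1)
theorem q2 (h : Sys B) : 1 * B 0 3 2 4 = 0 := by
  linear_combination ((-1)) * (h.p8 2 4 - (-1) * h.diag2 0 2 4 - 1 * h.diag 2 3 4)
theorem q3 (h : Sys B) : 1 * B 0 3 2 5 = 0 := by
  linear_combination ((-1)) * (h.p8 2 5 - (-1) * h.diag2 0 2 5 - 1 * h.diag 2 3 5)
theorem q4 (h : Sys B) : 1 * B 1 6 2 5 = 0 := by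
  linear_combination (1) * (h.p10 2 5 - 1 * h.diag4 1 5 2 - 1 * h.diag3 5 6 2)
theorem q5 (h : Sys B) : 1 * B 0 3 2 6 = 0 := by
  linear_combination ((-1)) * (h.p8 2 6 - (-1) * h.diag2 0 2 6 - 1 * h.diag 2 3 6)
theorem q6 (h : Sys B) : 1 * B 1 5 2 6 = 0 := by
  linear_combination (1) * (h.p10 2 6 - 1 * h.diag4 1 6 2 - 1 * h.diag4 5 6 2)
theorem q7 (h : Sys B) : 1 * B 0 2 3 4 = 0 := by
  linear_combination ((-1)) * (h.p8 3 4 - (-1) * h.diag2 0 3 4 - 1 * h.diag2 2 3 4)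
theorem q8 (h : Sys B) : 1 * B 2 5 3 4 = 0 := by
  linear_combination ((-1)) * (h.p11 3 4 - (-1) * h.diag4 2 4 3 - 1 * h.diag3 4 5 3)
theorem q9 (h : Sys B) : 1 * B 0 2 3 5 = 0 := by
  linear_combination ((-1)) * (h.p8 3 5 - (-1) * h.diag2 0 3 5 - 1 * h.diag2 2 3 5)
theorem q10 (h : Sys B) : 1 * B 1 6 3 5 = 0 := by
  linear_combination (1) * (h.p10 3 5 - 1 * h.diag4 1 5 3 - 1 * h.diag3 5 6 3)
theorem q11 (h : Sys B) : 1 * B 2 4 3 5 = 0 := by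
  linear_combination ((-1)) * (h.p11 3 5 - (-1) * h.diag4 2 5 3 - 1 * h.diag4 4 5 3)
theorem q12 (h : Sys B) : 1 * B 0 2 3 6 = 0 := by
  linear_combination ((-1)) * (h.p8 3 6 - (-1) * h.diag2 0 3 6 - 1 * h.diag2 2 3 6)
theorem q13 (h : Sys B) : 1 * B 1 5 3 6 = 0 := by
  linear_combination (1) * (h.p10 3 6 - 1 * h.diag4 1 6 3 - 1 * h.diag4 5 6 3)
theorem q14 (h : Sys B) : 1 * B 3 6 4 5 = 0 := by
  linear_combination ((-1)) * (h.p9 4 5 - 1 * h.diag2 3 4 5 - (-1) * h.diag 4 6 5)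
theorem q15 (h : Sys B) : 1 * B 1 6 4 5 = 0 := by
  linear_combination (1) * (h.p10 4 5 - 1 * h.diag4 1 5 4 - 1 * h.diag3 5 6 4)
theorem q16 (h : Sys B) : 1 * B 1 5 4 6 = 0 := by
  linear_combination (1) * (h.p10 4 6 - 1 * h.diag4 1 6 4 - 1 * h.diag4 5 6 4)
theorem q17 (h : Sys B) : 1 * B 2 5 4 6 = 0 := by
  linear_combination ((-1)) * (h.p11 4 6 - (-1) * h.diag2 2 4 6 - 1 * h.diag 4 5 6)
theorem q18 (h : Sys B) : 1 * B 3 4 5 6 = 0 := by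
  linear_combination (1) * (h.p9 5 6 - (-1) * h.diag4 3 6 5 - (-1) * h.diag4 4 6 5)
theorem q19 (h : Sys B) : 1 * B 2 4 5 6 = 0 := by
  linear_combination ((-1)) * (h.p11 5 6 - (-1) * h.diag2 2 5 6 - 1 * h.diag2 4 5 6)
theorem q20 (h : Sys B) : 1 * B 0 5 1 6 + 1 * B 0 6 1 5 = 0 := by
  linear_combination (1) * (h.p10 0 1 - 1 * h.diag3 1 5 0 - 1 * h.diag3 1 6 0 - 1 * h.r3 0 1 5 6)
theorem q21 (h : Sys B) : 1 * B 0 4 3 6 + 1 * B 0 6 3 4 = 0 := by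
  linear_combination ((-1)) * (h.p9 0 3 - 1 * h.diag3 3 4 0 - (-1) * h.diag3 3 6 0 - (-1) * h.r3 0 3 4 6)
theorem q22 (h : Sys B) : 1 * B 1 3 4 6 + (-1) * B 1 6 3 4 = 0 := by
  linear_combination ((-1)) * (h.p9 1 4 - 1 * h.diag4 3 4 1 - (-1) * h.r2 1 3 4 6 - (-1) * h.diag3 4 6 1)
theorem q23 (h : Sys B) : 1 * B 2 4 3 6 + 1 * B 2 6 3 4 = 0 := by
  linear_combination ((-1)) * (h.p9 2 3 - 1 * h.diag3 3 4 2 - (-1) * h.diag3 3 6 2 - (-1) * h.r3 2 3 4 6)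
theorem q24 (h : Sys B) : 1 * B 0 3 4 6 + 1 * B 0 4 3 6 = 0 := by
  linear_combination ((-1)) * (h.p9 0 6 - 1 * h.r1 0 3 4 6 - (-1) * h.diag4 3 6 0 - (-1) * h.diag4 4 6 0)
theorem q25 (h : Sys B) : 1 * B 1 4 3 6 + 1 * B 1 6 3 4 = 0 := by
  linear_combination ((-1)) * (h.p9 1 3 - 1 * h.diag3 3 4 1 - (-1) * h.diag3 3 6 1 - (-1) * h.r3 1 3 4 6)
theorem q26 (h : Sys B) : 1 * B 2 3 4 6 + 1 * B 2 4 3 6 = 0 := by
  linear_combination ((-1)) * (h.p9 2 6 - 1 * h.r1 2 3 4 6 - (-1) * h.diag4 3 6 2 - (-1) * h.diag4 4 6 2)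
theorem q27 (h : Sys B) : 1 * B 0 1 5 6 + 1 * B 0 5 1 6 = 0 := by
  linear_combination ((-1)) * (h.p10 0 6 - 1 * h.r1 0 1 5 6 - 1 * h.diag4 1 6 0 - 1 * h.diag4 5 6 0)
theorem q28 (h : Sys B) : 1 * B 0 4 2 5 + 1 * B 0 5 2 4 = 0 := by
  linear_combination (1) * (h.p11 0 2 - (-1) * h.diag3 2 4 0 - (-1) * h.diag3 2 5 0 - 1 * h.r3 0 2 4 5)
theorem q29 (h : Sys B) : 1 * B 1 4 2 5 + 1 * B 1 5 2 4 = 0 := by
  linear_combination (1) * (h.p11 1 2 - (-1) * h.diag3 2 4 1 - (-1) * h.diag3 2 5 1 - 1 * h.r3 1 2 4 5)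
theorem q30 (h : Sys B) : 1 * B 0 4 1 2 + 1 * B 0 5 1 2 = 0 := by
  linear_combination (1) * (h.p7 1 2 - 1 * h.diag2 0 1 2 - (-1) * h.diag4 0 2 1 - (-1) * h.diag 1 2 2 - 1 * h.diag 1 4 2 - 1 * h.diag 1 5 2 - (-1) * h.diag3 2 4 1 - (-1) * h.diag3 2 5 1 - 1 * h.r3 1 2 4 5 - 1 * q29 h)
theorem q31 (h : Sys B) : 1 * B 0 1 2 4 + 1 * B 0 1 2 5 = 0 := by
  linear_combination (1) * (h.p7 0 2 - 1 * h.diag 0 1 2 - (-1) * h.diag 0 2 2 - 1 * h.diag 0 4 2 - 1 * h.diag 0 5 2 - (-1) * h.diag4 1 2 0 - 1 * h.r2 0 1 2 4 - 1 * h.r2 0 1 2 5 - (-1) * h.diag3 2 4 0 - (-1) * h.diag3 2 5 0 - 1 * h.r3 0 2 4 5 - 1 * q28 h - (-1) * q30 h)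
theorem q32 (h : Sys B) : 1 * B 1 2 4 5 + (-1) * B 1 5 2 4 = 0 := by
  linear_combination ((-1)) * (h.p11 1 4 - (-1) * h.diag4 2 4 1 - (-1) * h.r2 1 2 4 5 - 1 * h.diag3 4 5 1)
theorem q33 (h : Sys B) : (-1) * B 0 2 1 5 + 1 * B 0 4 1 5 = 0 := by
  linear_combination (1) * (h.p7 1 5 - 1 * h.diag2 0 1 5 - 1 * h.diag4 0 5 1 - (-1) * h.diag 1 2 5 - 1 * h.diag 1 4 5 - 1 * h.diag 1 5 5 - (-1) * h.r1 1 2 4 5 - (-1) * h.diag4 2 5 1 - 1 * h.diag4 4 5 1 - 1 * q29 h - 1 * q32 h)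
theorem q34 (h : Sys B) : 1 * B 0 2 4 5 + 1 * B 0 3 4 5 + (-1) * B 2 3 4 5 = 0 := by
  linear_combination ((-1)) * (h.p8 4 5)
theorem q35 (h : Sys B) : (1/3) * B 0 2 4 5 + 1 * B 2 3 4 5 = 0 := by
  linear_combination ((1/3)) * (h.p14 4 5 - 1 * q34 h)
theorem q36 (h : Sys B) : 1 * B 0 2 5 6 + 1 * B 0 3 5 6 + (-1) * B 2 3 5 6 = 0 := by
  linear_combination ((-1)) * (h.p8 5 6)
theorem q37 (h : Sys B) : (1/3) * B 0 2 5 6 + 1 * B 2 3 5 6 = 0 := by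
  linear_combination ((1/3)) * (h.p14 5 6 - 1 * q36 h)
theorem q38 (h : Sys B) : 1 * B 0 2 1 5 + 1 * B 0 3 1 5 + 1 * B 1 2 3 5 + 1 * B 1 3 2 5 = 0 := by
  linear_combination ((-1)) * (h.p8 1 5 - 1 * h.r1 1 2 3 5)
theorem q39 (h : Sys B) : 1 * B 0 2 1 5 + (-3) * B 1 2 3 5 + (-3) * B 1 3 2 5 = 0 := by
  linear_combination (1) * (h.p14 1 5 - 2 * h.r1 1 2 3 5 - 1 * q38 h)
theorem q40 (h : Sys B) : 1 * B 0 2 1 4 + (-1) * B 0 5 1 4 = 0 := by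
  linear_combination ((-1)) * (h.p7 1 4 - 1 * h.diag2 0 1 4 - 1 * h.diag4 0 4 1 - (-1) * h.diag 1 2 4 - 1 * h.diag 1 4 4 - 1 * h.diag 1 5 4 - (-1) * h.diag4 2 4 1 - (-1) * h.r2 1 2 4 5 - 1 * h.diag3 4 5 1 - (-1) * q32 h)
theorem q41 (h : Sys B) : 1 * B 1 5 2 4 + 1 * B 1 6 2 4 + 1 * B 2 6 4 5 = 0 := by
  linear_combination (1) * (h.p10 2 4 - 1 * h.r3 2 4 5 6 - 1 * q17 h)
theorem q42 (h : Sys B) : (4/3) * B 1 5 2 4 + 1 * B 2 6 4 5 = 0 := by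
  linear_combination ((-1/3)) * (h.p17 2 4 - 3 * h.r3 2 4 5 6 - 3 * q17 h - 6 * q41 h)
theorem q43 (h : Sys B) : 1 * B 1 5 3 4 + 1 * B 1 6 3 4 + 1 * B 3 5 4 6 = 0 := by
  linear_combination (1) * (h.p10 3 4 - 1 * h.r3 3 4 5 6 - 1 * q14 h)
theorem q44 (h : Sys B) : (4/3) * B 1 5 3 4 + 1 * B 3 5 4 6 = 0 := by
  linear_combination ((-1/3)) * (h.p17 3 4 - 3 * h.r3 3 4 5 6 - 3 * q14 h - 6 * q43 h)
theorem q45 (h : Sys B) : (-1) * B 0 2 4 6 + 1 * B 0 4 3 6 + (-1) * B 2 4 3 6 = 0 := by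
  linear_combination (1) * (h.p8 4 6 - (-1) * q24 h - 1 * q26 h)
theorem q46 (h : Sys B) : (-1/3) * B 0 2 4 6 + 1 * B 2 4 3 6 = 0 := by
  linear_combination ((-1/3)) * (h.p14 4 6 - 1 * q24 h - 2 * q26 h - (-1) * q45 h)
theorem q47 (h : Sys B) : (-1) * B 0 4 2 3 + 1 * B 0 6 2 3 + 1 * B 0 4 2 6 + 1 * B 0 6 2 4 = 0 := by
  linear_combination ((-1)) * (h.p9 0 2 - 1 * h.r3 0 2 3 4 - (-1) * h.r3 0 2 3 6 - (-1) * h.r3 0 2 4 6 - 1 * q2 h - (-1) * q5 h)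
theorem q48 (h : Sys B) : (-4) * B 0 4 2 3 + 1 * B 0 4 2 6 + 1 * B 0 6 2 4 = 0 := by
  linear_combination ((-1)) * (h.p16 0 2 - 6 * h.r3 0 2 3 4 - (-2) * h.r3 0 2 3 6 - (-3) * h.r3 0 2 4 6 - 6 * q2 h - (-2) * q5 h - (-2) * q47 h)
theorem q49 (h : Sys B) : 1 * B 1 3 4 5 + 1 * B 1 4 3 5 + 1 * B 1 3 5 6 + 1 * B 1 4 5 6 = 0 := by
  linear_combination ((-1)) * (h.p9 1 5 - 1 * h.r1 1 3 4 5 - (-1) * h.r2 1 3 5 6 - (-1) * h.r2 1 4 5 6 - 1 * q10 h - 1 * q15 h)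
theorem q50 (h : Sys B) : 1 * B 1 3 5 6 + (3/4) * B 1 4 5 6 = 0 := by
  linear_combination ((1/4)) * (h.p16 1 5 - 6 * h.r1 1 3 4 5 - (-2) * h.r2 1 3 5 6 - (-3) * h.r2 1 4 5 6 - 2 * q10 h - 3 * q15 h - (-6) * q49 h)
theorem q51 (h : Sys B) : 1 * B 0 5 1 6 + 1 * B 1 2 5 6 = 0 := by
  linear_combination (1) * (h.p12 1 5 - (-2) * h.diag2 0 1 5 - (-2) * h.diag4 0 5 1 - 2 * h.diag 1 2 5 - 4 * h.diag 1 3 5 - 2 * h.diag 1 4 5 - 4 * h.diag 1 5 5 - 2 * h.diag 1 6 5 - 2 * h.r1 1 2 3 5 - 1 * h.r1 1 2 4 5 - 2 * h.diag4 2 5 1 - 1 * h.r2 1 2 5 6 - 2 * h.r1 1 3 4 5 - 4 * h.diag4 3 5 1 - 2 * h.r2 1 3 5 6 - 2 * h.diag4 4 5 1 - 1 * h.r2 1 4 5 6 - 2 * h.diag3 5 6 1 - (-1) * q4 h - (-2) * q10 h - (-1) * q15 h - (-1) * q20 h - (-1) * q29 h - (-1) * q32 h - (-1) * q33 h - (-2) * q38 h - (-2) * q49 h - 4 * q50 h)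
theorem q52 (h : Sys B) : 1 * B 1 2 4 6 + 1 * B 1 4 2 6 + 1 * B 1 2 5 6 + (-1) * B 1 4 5 6 = 0 := by
  linear_combination (1) * (h.p11 1 6 - (-1) * h.r1 1 2 4 6 - (-1) * h.r1 1 2 5 6 - 1 * h.r1 1 4 5 6 - 1 * q6 h - (-1) * q16 h)
theorem q53 (h : Sys B) : (1/12) * B 0 5 1 2 + (1/4) * B 0 5 1 4 + 1 * B 1 2 3 5 + 1 * B 1 3 2 5 = 0 := by
  linear_combination ((1/12)) * (h.p15 0 1 - 1 * h.r3 0 1 2 4 - 2 * h.r3 0 1 2 5 - 2 * h.r3 0 1 4 5 - 1 * q30 h - 2 * q33 h - 4 * q39 h - 1 * q40 h)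
theorem q54 (h : Sys B) : (-1) * B 0 2 4 5 + 1 * B 0 5 2 4 = 0 := by
  linear_combination (1) * (h.p11 0 4 - (-1) * h.diag4 2 4 0 - (-1) * h.r2 0 2 4 5 - 1 * h.diag3 4 5 0)
theorem q55 (h : Sys B) : (-1) * B 0 1 2 5 + 1 * B 0 1 4 5 = 0 := by
  linear_combination (1) * (h.p7 0 4 - 1 * h.diag 0 1 4 - (-1) * h.diag 0 2 4 - 1 * h.diag 0 4 4 - 1 * h.diag 0 5 4 - (-1) * h.r1 0 1 2 4 - 1 * h.diag4 1 4 0 - 1 * h.r2 0 1 4 5 - (-1) * h.diag4 2 4 0 - (-1) * h.r2 0 2 4 5 - 1 * h.diag3 4 5 0 - 1 * q31 h - 1 * q40 h - 1 * q54 h)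
theorem q56 (h : Sys B) : 1 * B 1 2 4 6 + 1 * B 1 4 2 6 + (-4) * B 1 4 5 6 = 0 := by
  linear_combination (1) * (h.p15 1 6 - 1 * h.r1 1 2 4 6 - 2 * h.r1 1 2 5 6 - 2 * h.r1 1 4 5 6 - (-2) * q6 h - (-2) * q16 h - (-2) * q52 h)
theorem q57 (h : Sys B) : (1/3) * B 0 2 4 6 + (-4/3) * B 1 5 3 4 + 1 * B 2 5 3 6 = 0 := by
  linear_combination ((-1)) * (h.p11 3 6 - 1 * h.r1 3 4 5 6 - (-1) * q18 h - (-1) * q44 h - (-1) * q46 h)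
theorem q58 (h : Sys B) : 1 * B 0 2 1 6 + (-1) * B 0 4 1 6 + (-3) * B 1 4 5 6 = 0 := by
  linear_combination ((-1)) * (h.p7 1 6 - 1 * h.diag2 0 1 6 - (-1) * h.diag 1 2 6 - 1 * h.diag 1 4 6 - 1 * h.diag 1 5 6 - (-1) * h.r1 1 2 4 6 - (-1) * h.r1 1 2 5 6 - 1 * h.r1 1 4 5 6 - 1 * q6 h - (-1) * q16 h - 1 * q51 h - 1 * q56 h)
theorem q59 (h : Sys B) : (-1/16) * B 0 2 4 6 + 1 * B 1 5 3 4 = 0 := by
  linear_combination ((3/16)) * (h.p15 3 6 - 2 * h.r1 3 4 5 6 - (-2) * q18 h - (-2) * q44 h - 1 * q46 h - 2 * q57 h)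
theorem q60 (h : Sys B) : 1 * B 0 3 1 4 + 1 * B 0 5 1 4 + 1 * B 1 2 3 4 + 1 * B 1 3 2 4 = 0 := by
  linear_combination ((-1)) * (h.p8 1 4 - 1 * h.r1 1 2 3 4 - (-1) * q40 h)
theorem q61 (h : Sys B) : (-1/3) * B 0 5 1 4 + 1 * B 1 2 3 4 + 1 * B 1 3 2 4 = 0 := by
  linear_combination ((-1/3)) * (h.p14 1 4 - 2 * h.r1 1 2 3 4 - 2 * q40 h - 1 * q60 h)
theorem q62 (h : Sys B) : (-1/4) * B 0 2 4 6 + 1 * B 1 5 2 3 + 1 * B 1 6 2 3 + 1 * B 2 6 3 5 = 0 := by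
  linear_combination (1) * (h.p10 2 3 - 1 * h.r3 2 3 5 6 - 1 * q57 h - (4/3) * q59 h)
theorem q63 (h : Sys B) : (-1/4) * B 0 2 4 6 + (4/3) * B 1 5 2 3 + 1 * B 2 6 3 5 = 0 := by
  linear_combination ((-1/3)) * (h.p17 2 3 - 3 * h.r3 2 3 5 6 - 3 * q57 h - 4 * q59 h - 6 * q62 h)
theorem q64 (h : Sys B) : 1 * B 0 1 3 4 + (1/16) * B 0 2 4 6 + 1 * B 0 5 3 4 + (-1) * B 1 2 3 4 = 0 := by
  linear_combination (1) * (h.p7 3 4 - 1 * h.diag4 0 4 3 - 1 * h.diag4 1 4 3 - (-1) * h.diag4 2 4 3 - 1 * h.diag3 4 5 3 - (-1) * q7 h - (-1) * q8 h - 1 * q59 h)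
theorem q65 (h : Sys B) : 1 * B 0 2 4 6 = 0 := by
  linear_combination ((4/5)) * (h.p12 3 4 - (-2) * h.diag2 0 3 4 - (-1) * h.diag4 0 4 3 - 4 * h.diag2 1 3 4 - 2 * h.diag4 1 4 3 - 2 * h.diag2 2 3 4 - 1 * h.diag4 2 4 3 - 2 * h.diag 3 4 4 - 4 * h.diag 3 5 4 - 2 * h.diag 3 6 4 - 2 * h.diag3 4 5 3 - 1 * h.diag3 4 6 3 - 2 * h.r3 3 4 5 6 - (-1) * q7 h - 2 * q8 h - 2 * q14 h - (-1) * q21 h - 1 * q23 h - 2 * q43 h - 1 * q45 h - 2 * q59 h - (-2) * q64 h)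
theorem q66 (h : Sys B) : 1 * B 0 5 3 4 + (-4) * B 1 2 3 4 = 0 := by
  linear_combination (1) * (h.p13 3 4 - 3 * h.diag4 0 4 3 - 6 * h.diag4 1 4 3 - (-9) * h.diag4 2 4 3 - 9 * h.diag3 4 5 3 - (-3) * q7 h - (-9) * q8 h - 6 * q59 h - 2 * q64 h - (1/4) * q65 h)
theorem q67 (h : Sys B) : 1 * B 0 1 3 6 + 1 * B 0 5 3 6 + (-1) * B 1 2 3 6 = 0 := by
  linear_combination (1) * (h.p7 3 6 - 1 * h.r1 3 4 5 6 - (-1) * q12 h - 1 * q13 h - (-1) * q18 h - 1 * q25 h - (-1) * q43 h - 1 * q45 h - (-1) * q57 h - (-1/3) * q59 h - (21/16) * q65 h)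
theorem q68 (h : Sys B) : 1 * B 0 5 3 6 + (-4) * B 1 2 3 6 = 0 := by
  linear_combination (1) * (h.p13 3 6 - 9 * h.r1 3 4 5 6 - (-3) * q12 h - 6 * q13 h - (-9) * q18 h - 6 * q25 h - (-6) * q43 h - (-3) * q44 h - 3 * q45 h - (-6) * q46 h - (-9) * q57 h - (-2) * q59 h - (31/8) * q65 h - 2 * q67 h)
theorem q69 (h : Sys B) : (-1) * B 0 1 2 5 + 1 * B 0 5 1 2 + (-1) * B 0 1 2 6 + 1 * B 0 6 1 2 + (-1) * B 0 5 2 6 + (-1) * B 0 6 2 5 = 0 := by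
  linear_combination ((-1)) * (h.p10 0 2 - 1 * h.r2 0 1 2 5 - 1 * h.r2 0 1 2 6 - 1 * h.r3 0 2 5 6)
theorem q70 (h : Sys B) : 1 * B 0 1 2 3 + 1 * B 0 5 2 3 = 0 := by
  linear_combination ((1/4)) * (h.p12 0 2 - (-2) * h.diag 0 1 2 - (-1) * h.diag 0 2 2 - (-2) * h.diag 0 3 2 - (-1) * h.diag 0 4 2 - (-2) * h.diag 0 5 2 - (-1) * h.diag 0 6 2 - 2 * h.diag4 1 2 0 - 4 * h.r2 0 1 2 3 - 2 * h.r2 0 1 2 4 - 4 * h.r2 0 1 2 5 - 2 * h.r2 0 1 2 6 - 2 * h.diag3 2 3 0 - 1 * h.diag3 2 4 0 - 2 * h.diag3 2 5 0 - 1 * h.diag3 2 6 0 - 2 * h.r3 0 2 3 4 - 4 * h.r3 0 2 3 5 - 2 * h.r3 0 2 3 6 - 2 * h.r3 0 2 4 5 - 1 * h.r3 0 2 4 6 - 2 * h.r3 0 2 5 6 - (-4) * q0 h - 2 * q2 h - 4 * q3 h - 2 * q5 h - 2 * q28 h - (-2) * q30 h - 2 * q31 h - 2 * q47 h - (-1) * q48 h - (-2) * q69 h)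
theorem q71 (h : Sys B) : 1 * B 0 4 2 3 + 1 * B 0 5 2 3 + 1 * B 0 4 3 5 + 4 * B 1 2 3 4 = 0 := by
  linear_combination (1) * (h.p11 0 3 - (-1) * h.r2 0 2 3 4 - (-1) * h.r2 0 2 3 5 - 1 * h.r3 0 3 4 5 - (-1) * q7 h - (-1) * q9 h - 1 * q66 h)
theorem q72 (h : Sys B) : (-1) * B 0 1 2 5 + 1 * B 0 5 1 2 + (-3/4) * B 0 5 2 6 + (-3/4) * B 0 6 2 5 = 0 := by
  linear_combination ((1/4)) * (h.p17 0 2 - 2 * h.r2 0 1 2 5 - 6 * h.r2 0 1 2 6 - 3 * h.r3 0 2 5 6 - (-6) * q69 h)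
theorem q73 (h : Sys B) : 1 * B 0 4 2 3 + 1 * B 1 4 2 3 + 1 * B 1 5 2 3 = 0 := by
  linear_combination (1) * (h.p7 2 3 - (-1) * h.diag2 0 2 3 - (-1) * h.diag2 1 2 3 - (-1) * h.diag 2 4 3 - (-1) * h.diag 2 5 3 - 1 * h.r3 2 3 4 5 - 1 * q8 h - 1 * q11 h - 1 * q70 h)
theorem q74 (h : Sys B) : (-1) * B 0 2 5 6 + 1 * B 0 4 5 6 + 1 * B 1 4 5 6 = 0 := by
  linear_combination (1) * (h.p7 5 6 - 1 * h.diag2 0 5 6 - 1 * h.diag2 1 5 6 - (-1) * h.diag2 2 5 6 - 1 * h.diag2 4 5 6 - (-1) * q19 h - 1 * q27 h - (-1) * q51 h)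
theorem q75 (h : Sys B) : 1 * B 1 4 5 6 = 0 := by
  linear_combination ((1/15)) * (h.p13 5 6 - 3 * h.diag2 0 5 6 - 6 * h.diag2 1 5 6 - (-9) * h.diag2 2 5 6 - 9 * h.diag2 4 5 6 - (-9) * q19 h - 2 * q27 h - (-2) * q51 h - (-4) * q52 h - 4 * q56 h - 3 * q74 h)
theorem q76 (h : Sys B) : 1 * B 0 1 4 6 + 1 * B 0 5 4 6 + 1 * B 1 4 2 6 = 0 := by
  linear_combination (1) * (h.p7 4 6 - 1 * h.diag2 0 4 6 - 1 * h.diag2 1 4 6 - (-1) * h.diag2 2 4 6 - 1 * h.diag 4 5 6 - 1 * q16 h - (-1) * q17 h - (-1) * q56 h - (-1) * q65 h - (-4) * q75 h)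
theorem q77 (h : Sys B) : 1 * B 0 5 4 6 + 4 * B 1 4 2 6 = 0 := by
  linear_combination (1) * (h.p13 4 6 - 3 * h.diag2 0 4 6 - 6 * h.diag2 1 4 6 - (-9) * h.diag2 2 4 6 - 9 * h.diag 4 5 6 - 6 * q16 h - (-9) * q17 h - (-6) * q56 h - (-3) * q65 h - (-24) * q75 h - 2 * q76 h)
theorem q78 (h : Sys B) : 1 * B 0 3 1 6 + 1 * B 0 4 1 6 + 1 * B 1 2 3 6 + 1 * B 1 3 2 6 = 0 := by
  linear_combination ((-1)) * (h.p8 1 6 - 1 * h.r1 1 2 3 6 - (-1) * q58 h - (-3) * q75 h)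
theorem q79 (h : Sys B) : 1 * B 0 4 1 6 + (-3) * B 1 2 3 6 + (-3) * B 1 3 2 6 = 0 := by
  linear_combination (1) * (h.p14 1 6 - 2 * h.r1 1 2 3 6 - 2 * q58 h - 6 * q75 h - 1 * q78 h)
theorem q80 (h : Sys B) : 1 * B 0 4 2 6 + 1 * B 0 5 2 6 + 4 * B 1 4 2 6 = 0 := by
  linear_combination (1) * (h.p11 0 6 - (-1) * h.r1 0 2 4 6 - (-1) * h.r1 0 2 5 6 - 1 * h.r1 0 4 5 6 - 1 * q65 h - (-1) * q74 h - 1 * q75 h - (-1) * q77 h)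
theorem q81 (h : Sys B) : 1 * B 0 1 2 6 + (-3) * B 1 4 2 6 = 0 := by
  linear_combination (1) * (h.p7 2 6 - (-1) * h.diag2 0 2 6 - (-1) * h.diag2 1 2 6 - (-1) * h.diag 2 4 6 - (-1) * h.diag 2 5 6 - 1 * h.r1 2 4 5 6 - 1 * q6 h - (-1) * q17 h - (-1) * q19 h - 1 * q80 h)
theorem q82 (h : Sys B) : (1/3) * B 0 2 5 6 + (-1/4) * B 0 5 2 6 + 1 * B 1 3 2 6 = 0 := by
  linear_combination ((1/4)) * (h.p12 2 6 - (-1) * h.diag2 0 2 6 - (-1) * h.diag4 0 6 2 - 2 * h.diag2 1 2 6 - 2 * h.diag4 1 6 2 - 2 * h.diag 2 3 6 - 1 * h.diag 2 4 6 - 2 * h.diag 2 5 6 - 1 * h.diag 2 6 6 - 2 * h.r1 2 3 4 6 - 4 * h.r1 2 3 5 6 - 2 * h.diag4 3 6 2 - 2 * h.r1 2 4 5 6 - 1 * h.diag4 4 6 2 - 2 * h.diag4 5 6 2 - (-2) * q5 h - 4 * q6 h - (-2) * q17 h - (-2) * q19 h - (-2) * q26 h - (-4) * q37 h - (-4) * q57 h - (-16/3) * q59 h - 1 * q65 h - (-1) * q80 h - (-2)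 * q81 h)
theorem q83 (h : Sys B) : (-1/3) * B 0 2 5 6 + (-1/12) * B 0 5 2 6 + 1 * B 1 4 2 6 = 0 := by
  linear_combination ((1/12)) * (h.p15 0 6 - 1 * h.r1 0 2 4 6 - 2 * h.r1 0 2 5 6 - 2 * h.r1 0 4 5 6 - (-1) * q65 h - (-2) * q74 h - 2 * q75 h - (-2) * q77 h - (-1) * q80 h)
theorem q84 (h : Sys B) : (-1) * B 0 1 3 5 + 1 * B 0 5 1 3 + 1 * B 0 6 1 3 + (-1) * B 0 6 3 5 + (-1) * B 1 2 3 6 = 0 := by
  linear_combination ((-1)) * (h.p10 0 3 - 1 * h.r2 0 1 3 5 - 1 * h.r2 0 1 3 6 - 1 * h.r3 0 3 5 6 - 1 * q67 h)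
theorem q85 (h : Sys B) : (1/3) * B 0 1 3 5 + (-1/3) * B 0 5 1 3 + (1/4) * B 0 6 3 5 + 1 * B 1 2 3 6 = 0 := by
  linear_combination ((-1/12)) * (h.p17 0 3 - 2 * h.r2 0 1 3 5 - 6 * h.r2 0 1 3 6 - 3 * h.r3 0 3 5 6 - 6 * q67 h - (-3) * q68 h - (-6) * q84 h)
theorem q86 (h : Sys B) : (4/3) * B 0 2 4 5 + (1/3) * B 0 2 5 6 + (-1) * B 0 4 3 5 + 1 * B 0 6 3 5 + 1 * B 0 6 4 5 = 0 := by
  linear_combination (1) * (h.p9 0 5 - 1 * h.r1 0 3 4 5 - (-1) * h.r2 0 3 5 6 - (-1) * h.r2 0 4 5 6 - (-1) * q34 h - (-1) * q35 h - (-1) * q36 h - (-1) * q37 h - (-1) * q74 h - 1 * q75 h)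
theorem q87 (h : Sys B) : (28/15) * B 0 1 2 5 + (4/5) * B 0 5 1 4 + (-4/3) * B 0 2 4 5 + (8/15) * B 0 2 5 6 + (1/5) * B 0 5 2 6 + 1 * B 0 6 2 5 + (16/5) * B 1 2 3 5 + (-32/15) * B 1 5 2 3 + (8/15) * B 1 5 2 4 = 0 := by
  linear_combination ((-4/5)) * (h.p12 2 5 - (-1) * h.diag2 0 2 5 - (-2) * h.diag4 0 5 2 - 2 * h.diag2 1 2 5 - 4 * h.diag4 1 5 2 - 2 * h.diag 2 3 5 - 1 * h.diag 2 4 5 - 2 * h.diag 2 5 5 - 1 * h.diag 2 6 5 - 2 * h.r1 2 3 4 5 - 4 * h.diag4 3 5 2 - 2 * h.r2 2 3 5 6 - 2 * h.diag4 4 5 2 - 1 * h.r2 2 4 5 6 - 2 * h.diag3 5 6 2 - (-2) * q3 h - 2 * q4 h - (-2) * q11 h - 1 * q19 h - (-1) * q28 h - 2 * q29 h - (-2) * q35 h - 2 * q37 h - (-1) * q42 h - 4 * q53 h - 1 * q54 h - (-2) * q63 h - (-1/2) * q65 h - (-1/3) * q72 h)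
theorem q88 (h : Sys B) : 1 * B 0 1 2 5 + (-1) * B 0 2 4 5 + (-1) * B 1 5 2 4 = 0 := by
  linear_combination ((-1)) * (h.p7 2 4 - (-1) * h.diag2 0 2 4 - 1 * h.diag4 0 4 2 - (-1) * h.diag2 1 2 4 - 1 * h.diag4 1 4 2 - (-1) * h.diag 2 4 4 - (-1) * h.diag 2 5 4 - 1 * h.diag3 4 5 2 - 1 * q31 h - 1 * q54 h)
theorem q89 (h : Sys B) : 1 * B 0 2 4 5 + 4 * B 1 5 2 4 = 0 := by
  linear_combination (1) * (h.p13 2 4 - (-3) * h.diag2 0 2 4 - 3 * h.diag4 0 4 2 - (-6) * h.diag2 1 2 4 - 6 * h.diag4 1 4 2 - (-9) * h.diag 2 4 4 - (-9) * h.diag 2 5 4 - 9 * h.diag3 4 5 2 - 2 * q31 h - 3 * q54 h - (-2) * q88 h)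
theorem q90 (h : Sys B) : (-1/8) * B 0 2 5 6 + (1/2) * B 1 5 2 3 + 1 * B 1 5 2 4 = 0 := by
  linear_combination ((-3/8)) * (h.p9 2 5 - 1 * h.r1 2 3 4 5 - (-1) * h.r2 2 3 5 6 - (-1) * h.r2 2 4 5 6 - (-1) * q11 h - (-1) * q19 h - (-1) * q35 h - (-1) * q37 h - 1 * q42 h - 1 * q63 h - (1/4) * q65 h - (1/3) * q89 h)
theorem q91 (h : Sys B) : 1 * B 0 2 5 6 + (-4) * B 1 5 2 3 = 0 := by
  linear_combination ((-6/5)) * (h.p16 2 5 - 6 * h.r1 2 3 4 5 - (-2) * h.r2 2 3 5 6 - (-3) * h.r2 2 4 5 6 - (-6) * q11 h - (-3) * q19 h - (-6) * q35 h - (-2) * q37 h - 3 * q42 h - 2 * q63 h - (1/2) * q65 h - 2 * q89 h - (-12) * q90 h)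
theorem q92 (h : Sys B) : 3 * B 0 4 3 5 + 1 * B 0 6 3 5 + (16/3) * B 1 5 2 3 = 0 := by
  linear_combination ((-1)) * (h.p16 0 5 - 6 * h.r1 0 3 4 5 - (-2) * h.r2 0 3 5 6 - (-3) * h.r2 0 4 5 6 - (-6) * q34 h - (-6) * q35 h - (-2) * q36 h - (-2) * q37 h - (-3) * q74 h - 3 * q75 h - 3 * q86 h - 4 * q89 h - (-16) * q90 h - (-10/3) * q91 h)
theorem q93 (h : Sys B) : 1 * B 0 4 3 5 + 1 * B 1 5 2 3 + 1 * B 1 4 3 5 = 0 := by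
  linear_combination ((-1/4)) * (h.p12 4 5 - (-1) * h.diag2 0 4 5 - (-2) * h.diag4 0 5 4 - 2 * h.diag2 1 4 5 - 4 * h.diag4 1 5 4 - 1 * h.diag2 2 4 5 - 2 * h.diag4 2 5 4 - 2 * h.diag2 3 4 5 - 4 * h.diag4 3 5 4 - 2 * h.diag 4 5 5 - 1 * h.diag 4 6 5 - 2 * h.diag3 5 6 4 - 2 * q14 h - 2 * q15 h - 2 * q32 h - (-2) * q34 h - 1 * q42 h - 4 * q49 h - (-4) * q50 h - (-2) * q55 h - (-1) * q75 h - (-1) * q86 h - (-2) * q88 h - (1/3) * q89 h - (-8/3) * q90 h - 1 * q92 h)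
theorem q94 (h : Sys B) : (-1) * B 0 1 3 5 + 1 * B 1 2 3 5 + 1 * B 1 5 2 3 = 0 := by
  linear_combination ((-1)) * (h.p7 3 5 - 1 * h.diag4 0 5 3 - 1 * h.diag4 1 5 3 - (-1) * h.diag4 2 5 3 - 1 * h.diag4 4 5 3 - (-1) * q9 h - (-1) * q11 h - 1 * q93 h)
theorem q95 (h : Sys B) : 1 * B 0 1 3 5 + (3/4) * B 0 4 3 5 = 0 := by
  linear_combination ((-1/4)) * (h.p13 3 5 - 3 * h.diag4 0 5 3 - 6 * h.diag4 1 5 3 - (-9) * h.diag4 2 5 3 - 9 * h.diag4 4 5 3 - (-3) * q9 h - (-9) * q11 h - 6 * q93 h - (-6) * q94 h)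
theorem q96 (h : Sys B) : 1 * B 0 5 1 4 + 1 * B 0 6 1 4 + (1/12) * B 0 5 2 6 + (-4) * B 0 4 3 5 + (-8/3) * B 1 5 2 3 = 0 := by
  linear_combination ((-1)) * (h.p10 0 4 - 1 * h.r2 0 1 4 5 - 1 * h.r2 0 1 4 6 - 1 * h.r3 0 4 5 6 - 1 * q55 h - 1 * q76 h - (-1) * q83 h - 1 * q86 h - 1 * q88 h - (-1/3) * q89 h - (7/3) * q90 h - (-3/8) * q91 h - (-1) * q92 h)
theorem q97 (h : Sys B) : 4 * B 0 5 1 4 + 1 * B 0 5 2 6 + (-12) * B 0 4 3 5 + 4 * B 1 5 2 3 = 0 := by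
  linear_combination (1) * (h.p17 0 4 - 2 * h.r2 0 1 4 5 - 6 * h.r2 0 1 4 6 - 3 * h.r3 0 4 5 6 - 2 * q55 h - 6 * q76 h - (-3) * q77 h - 6 * q83 h - 3 * q86 h - 2 * q88 h - (-2) * q89 h - 10 * q90 h - (9/4) * q91 h - (-3) * q92 h - (-6) * q96 h)
theorem q98 (h : Sys B) : (-3/5) * B 0 4 1 3 + (-3/5) * B 0 5 1 3 + 1 * B 0 5 1 4 + (-9/4) * B 0 4 3 5 = 0 := by
  linear_combination ((-3/5)) * (h.p9 0 1 - 1 * h.r3 0 1 3 4 - (-1) * h.r3 0 1 3 6 - (-1) * h.r3 0 1 4 6 - 1 * q60 h - (-1) * q61 h - (-1) * q78 h - 1 * q82 h - (-1) * q84 h - (-1/3) * q91 h - (-1) * q92 h - (-1) * q95 h - (-1) * q96 h - (1/3) * q97 h)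
theorem q99 (h : Sys B) : 1 * B 0 4 1 3 + (-2/3) * B 0 5 1 3 + (-25/4) * B 0 4 3 5 = 0 := by
  linear_combination ((1/3)) * (h.p16 0 1 - 6 * h.r3 0 1 3 4 - (-2) * h.r3 0 1 3 6 - (-3) * h.r3 0 1 4 6 - 6 * q60 h - (-6) * q61 h - (-2) * q78 h - (-1) * q79 h - (-1) * q82 h - (-2) * q84 h - (-3) * q85 h - (1/3) * q91 h - (-5/4) * q92 h - (-1) * q95 h - (-3) * q96 h - (-5) * q98 h)
theorem q100 (h : Sys B) : 1 * B 0 5 1 3 + (18/5) * B 0 4 3 5 + (-3/5) * B 1 2 3 4 + (3/5) * B 1 4 2 3 + (3/5) * B 1 5 2 3 = 0 := by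
  linear_combination ((3/5)) * (h.p7 1 3 - 1 * h.diag2 0 1 3 - (-1) * h.diag 1 2 3 - 1 * h.diag 1 4 3 - 1 * h.diag 1 5 3 - (-1) * h.r2 1 2 3 4 - (-1) * h.r2 1 2 3 5 - 1 * h.r3 1 3 4 5 - (-1) * q1 h - 1 * q59 h - (1/16) * q65 h - 1 * q93 h - (-1) * q94 h - (-1) * q95 h - 1 * q99 h)
theorem q101 (h : Sys B) : 1 * B 0 4 3 5 + 4 * B 1 2 3 4 + (-1/4) * B 1 4 2 3 + (-1/4) * B 1 5 2 3 = 0 := by
  linear_combination ((1/4)) * (h.p15 0 3 - 1 * h.r2 0 2 3 4 - 2 * h.r2 0 2 3 5 - 2 * h.r3 0 3 4 5 - 1 * q7 h - 2 * q9 h - 2 * q66 h - (-2) * q71 h - 1 * q73 h)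
theorem q102 (h : Sys B) : 1 * B 1 2 3 4 + (-1/8) * B 1 4 2 3 + (-11/24) * B 1 5 2 3 = 0 := by
  linear_combination ((1/15)) * (h.p15 1 3 - 1 * h.r2 1 2 3 4 - 2 * h.r2 1 2 3 5 - 2 * h.r3 1 3 4 5 - 2 * q59 h - (1/8) * q65 h - 2 * q93 h - 2 * q94 h - 2 * q95 h - (-7/2) * q101 h)
theorem q103 (h : Sys B) : 1 * B 1 4 2 3 + 1 * B 1 5 2 3 = 0 := by
  linear_combination ((16/15)) * (h.p11 1 3 - (-1) * h.r2 1 2 3 4 - (-1) * h.r2 1 2 3 5 - 1 * h.r3 1 3 4 5 - 1 * q59 h - (1/16) * q65 h - 1 * q93 h - (-1) * q94 h - (-1) * q95 h - (-1/4) * q101 h)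
theorem q104 (h : Sys B) : 1 * B 1 5 2 3 = 0 := by
  linear_combination ((-1/10)) * (h.p16 1 2 - 6 * h.r3 1 2 3 4 - (-2) * h.r3 1 2 3 6 - (-3) * h.r3 1 2 4 6 - (-3) * q41 h - 3 * q42 h - 6 * q61 h - (-2) * q62 h - 2 * q63 h - (-2) * q82 h - (-3) * q83 h - (-1) * q90 h - (-11/24) * q91 h - (-3/4) * q97 h - 5 * q98 h - 3 * q99 h - 5 * q100 h - 3 * q101 h - (-15) * q102 h - (15/8) * q103 h)

theorem z104 (h : Sys B) : B 1 5 2 3 = 0 := by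
  linear_combination q104 h
theorem z103 (h : Sys B) : B 1 4 2 3 = 0 := by
  linear_combination q103 h - 1 * z104 h
theorem z102 (h : Sys B) : B 1 2 3 4 = 0 := by
  linear_combination q102 h - (-1/8) * z103 h - (-11/24) * z104 h
theorem z101 (h : Sys B) : B 0 4 3 5 = 0 := by
  linear_combination q101 h - 4 * z102 h - (-1/4) * z103 h - (-1/4) * z104 h
theorem z100 (h : Sys B) : B 0 5 1 3 = 0 := by
  linear_combination q100 h - (18/5) * z101 h - (-3/5) * z102 h - (3/5) * z103 h - (3/5) * z104 h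
theorem z99 (h : Sys B) : B 0 4 1 3 = 0 := by
  linear_combination q99 h - (-2/3) * z100 h - (-25/4) * z101 h
theorem z98 (h : Sys B) : B 0 5 1 4 = 0 := by
  linear_combination q98 h - (-3/5) * z99 h - (-3/5) * z100 h - (-9/4) * z101 h
theorem z97 (h : Sys B) : B 0 5 2 6 = 0 := by
  linear_combination q97 h - 4 * z98 h - (-12) * z101 h - 4 * z104 h
theorem z96 (h : Sys B) : B 0 6 1 4 = 0 := by
  linear_combination q96 h - 1 * z98 h - (1/12) * z97 h - (-4) * z101 h - (-8/3) * z104 h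
theorem z95 (h : Sys B) : B 0 1 3 5 = 0 := by
  linear_combination q95 h - (3/4) * z101 h
theorem z94 (h : Sys B) : B 1 2 3 5 = 0 := by
  linear_combination q94 h - (-1) * z95 h - 1 * z104 h
theorem z93 (h : Sys B) : B 1 4 3 5 = 0 := by
  linear_combination q93 h - 1 * z101 h - 1 * z104 h
theorem z92 (h : Sys B) : B 0 6 3 5 = 0 := by
  linear_combination q92 h - 3 * z101 h - (16/3) * z104 h
theorem z91 (h : Sys B) : B 0 2 5 6 = 0 := by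
  linear_combination q91 h - (-4) * z104 h
theorem z90 (h : Sys B) : B 1 5 2 4 = 0 := by
  linear_combination q90 h - (-1/8) * z91 h - (1/2) * z104 h
theorem z89 (h : Sys B) : B 0 2 4 5 = 0 := by
  linear_combination q89 h - 4 * z90 h
theorem z88 (h : Sys B) : B 0 1 2 5 = 0 := by
  linear_combination q88 h - (-1) * z89 h - (-1) * z90 h
theorem z87 (h : Sys B) : B 0 6 2 5 = 0 := by
  linear_combination q87 h - (28/15) * z88 h - (4/5) * z98 h - (-4/3) * z89 h - (8/15) * z91 h - (1/5) * z97 h - (16/5) * z94 h - (-32/15) * z104 h - (8/15) * z90 h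
theorem z86 (h : Sys B) : B 0 6 4 5 = 0 := by
  linear_combination q86 h - (4/3) * z89 h - (1/3) * z91 h - (-1) * z101 h - 1 * z92 h
theorem z85 (h : Sys B) : B 1 2 3 6 = 0 := by
  linear_combination q85 h - (1/3) * z95 h - (-1/3) * z100 h - (1/4) * z92 h
theorem z84 (h : Sys B) : B 0 6 1 3 = 0 := by
  linear_combination q84 h - (-1) * z95 h - 1 * z100 h - (-1) * z92 h - (-1) * z85 h
theorem z83 (h : Sys B) : B 1 4 2 6 = 0 := by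
  linear_combination q83 h - (-1/3) * z91 h - (-1/12) * z97 h
theorem z82 (h : Sys B) : B 1 3 2 6 = 0 := by
  linear_combination q82 h - (1/3) * z91 h - (-1/4) * z97 h
theorem z81 (h : Sys B) : B 0 1 2 6 = 0 := by
  linear_combination q81 h - (-3) * z83 h
theorem z80 (h : Sys B) : B 0 4 2 6 = 0 := by
  linear_combination q80 h - 1 * z97 h - 4 * z83 h
theorem z79 (h : Sys B) : B 0 4 1 6 = 0 := by
  linear_combination q79 h - (-3) * z85 h - (-3) * z82 h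
theorem z78 (h : Sys B) : B 0 3 1 6 = 0 := by
  linear_combination q78 h - 1 * z79 h - 1 * z85 h - 1 * z82 h
theorem z77 (h : Sys B) : B 0 5 4 6 = 0 := by
  linear_combination q77 h - 4 * z83 h
theorem z76 (h : Sys B) : B 0 1 4 6 = 0 := by
  linear_combination q76 h - 1 * z77 h - 1 * z83 h
theorem z75 (h : Sys B) : B 1 4 5 6 = 0 := by
  linear_combination q75 h
theorem z74 (h : Sys B) : B 0 4 5 6 = 0 := by
  linear_combination q74 h - (-1) * z91 h - 1 * z75 h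
theorem z73 (h : Sys B) : B 0 4 2 3 = 0 := by
  linear_combination q73 h - 1 * z103 h - 1 * z104 h
theorem z72 (h : Sys B) : B 0 5 1 2 = 0 := by
  linear_combination q72 h - (-1) * z88 h - (-3/4) * z97 h - (-3/4) * z87 h
theorem z71 (h : Sys B) : B 0 5 2 3 = 0 := by
  linear_combination q71 h - 1 * z73 h - 1 * z101 h - 4 * z102 h
theorem z70 (h : Sys B) : B 0 1 2 3 = 0 := by
  linear_combination q70 h - 1 * z71 h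
theorem z69 (h : Sys B) : B 0 6 1 2 = 0 := by
  linear_combination q69 h - (-1) * z88 h - 1 * z72 h - (-1) * z81 h - (-1) * z97 h - (-1) * z87 h
theorem z68 (h : Sys B) : B 0 5 3 6 = 0 := by
  linear_combination q68 h - (-4) * z85 h
theorem z67 (h : Sys B) : B 0 1 3 6 = 0 := by
  linear_combination q67 h - 1 * z68 h - (-1) * z85 h
theorem z66 (h : Sys B) : B 0 5 3 4 = 0 := by
  linear_combination q66 h - (-4) * z102 h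
theorem z65 (h : Sys B) : B 0 2 4 6 = 0 := by
  linear_combination q65 h
theorem z64 (h : Sys B) : B 0 1 3 4 = 0 := by
  linear_combination q64 h - (1/16) * z65 h - 1 * z66 h - (-1) * z102 h
theorem z63 (h : Sys B) : B 2 6 3 5 = 0 := by
  linear_combination q63 h - (-1/4) * z65 h - (4/3) * z104 h
theorem z62 (h : Sys B) : B 1 6 2 3 = 0 := by
  linear_combination q62 h - (-1/4) * z65 h - 1 * z104 h - 1 * z63 h
theorem z61 (h : Sys B) : B 1 3 2 4 = 0 := by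
  linear_combination q61 h - (-1/3) * z98 h - 1 * z102 h
theorem z60 (h : Sys B) : B 0 3 1 4 = 0 := by
  linear_combination q60 h - 1 * z98 h - 1 * z102 h - 1 * z61 h
theorem z59 (h : Sys B) : B 1 5 3 4 = 0 := by
  linear_combination q59 h - (-1/16) * z65 h
theorem z58 (h : Sys B) : B 0 2 1 6 = 0 := by
  linear_combination q58 h - (-1) * z79 h - (-3) * z75 h
theorem z57 (h : Sys B) : B 2 5 3 6 = 0 := by
  linear_combination q57 h - (1/3) * z65 h - (-4/3) * z59 h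
theorem z56 (h : Sys B) : B 1 2 4 6 = 0 := by
  linear_combination q56 h - 1 * z83 h - (-4) * z75 h
theorem z55 (h : Sys B) : B 0 1 4 5 = 0 := by
  linear_combination q55 h - (-1) * z88 h
theorem z54 (h : Sys B) : B 0 5 2 4 = 0 := by
  linear_combination q54 h - (-1) * z89 h
theorem z53 (h : Sys B) : B 1 3 2 5 = 0 := by
  linear_combination q53 h - (1/12) * z72 h - (1/4) * z98 h - 1 * z94 h
theorem z52 (h : Sys B) : B 1 2 5 6 = 0 := by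
  linear_combination q52 h - 1 * z56 h - 1 * z83 h - (-1) * z75 h
theorem z51 (h : Sys B) : B 0 5 1 6 = 0 := by
  linear_combination q51 h - 1 * z52 h
theorem z50 (h : Sys B) : B 1 3 5 6 = 0 := by
  linear_combination q50 h - (3/4) * z75 h
theorem z49 (h : Sys B) : B 1 3 4 5 = 0 := by
  linear_combination q49 h - 1 * z93 h - 1 * z50 h - 1 * z75 h
theorem z48 (h : Sys B) : B 0 6 2 4 = 0 := by
  linear_combination q48 h - (-4) * z73 h - 1 * z80 h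
theorem z47 (h : Sys B) : B 0 6 2 3 = 0 := by
  linear_combination q47 h - (-1) * z73 h - 1 * z80 h - 1 * z48 h
theorem z46 (h : Sys B) : B 2 4 3 6 = 0 := by
  linear_combination q46 h - (-1/3) * z65 h
theorem z45 (h : Sys B) : B 0 4 3 6 = 0 := by
  linear_combination q45 h - (-1) * z65 h - (-1) * z46 h
theorem z44 (h : Sys B) : B 3 5 4 6 = 0 := by
  linear_combination q44 h - (4/3) * z59 h
theorem z43 (h : Sys B) : B 1 6 3 4 = 0 := by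
  linear_combination q43 h - 1 * z59 h - 1 * z44 h
theorem z42 (h : Sys B) : B 2 6 4 5 = 0 := by
  linear_combination q42 h - (4/3) * z90 h
theorem z41 (h : Sys B) : B 1 6 2 4 = 0 := by
  linear_combination q41 h - 1 * z90 h - 1 * z42 h
theorem z40 (h : Sys B) : B 0 2 1 4 = 0 := by
  linear_combination q40 h - (-1) * z98 h
theorem z39 (h : Sys B) : B 0 2 1 5 = 0 := by
  linear_combination q39 h - (-3) * z94 h - (-3) * z53 h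
theorem z38 (h : Sys B) : B 0 3 1 5 = 0 := by
  linear_combination q38 h - 1 * z39 h - 1 * z94 h - 1 * z53 h
theorem z37 (h : Sys B) : B 2 3 5 6 = 0 := by
  linear_combination q37 h - (1/3) * z91 h
theorem z36 (h : Sys B) : B 0 3 5 6 = 0 := by
  linear_combination q36 h - 1 * z91 h - (-1) * z37 h
theorem z35 (h : Sys B) : B 2 3 4 5 = 0 := by
  linear_combination q35 h - (1/3) * z89 h
theorem z34 (h : Sys B) : B 0 3 4 5 = 0 := by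
  linear_combination q34 h - 1 * z89 h - (-1) * z35 h
theorem z33 (h : Sys B) : B 0 4 1 5 = 0 := by
  linear_combination q33 h - (-1) * z39 h
theorem z32 (h : Sys B) : B 1 2 4 5 = 0 := by
  linear_combination q32 h - (-1) * z90 h
theorem z31 (h : Sys B) : B 0 1 2 4 = 0 := by
  linear_combination q31 h - 1 * z88 h
theorem z30 (h : Sys B) : B 0 4 1 2 = 0 := by
  linear_combination q30 h - 1 * z72 h
theorem z29 (h : Sys B) : B 1 4 2 5 = 0 := by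
  linear_combination q29 h - 1 * z90 h
theorem z28 (h : Sys B) : B 0 4 2 5 = 0 := by
  linear_combination q28 h - 1 * z54 h
theorem z27 (h : Sys B) : B 0 1 5 6 = 0 := by
  linear_combination q27 h - 1 * z51 h
theorem z26 (h : Sys B) : B 2 3 4 6 = 0 := by
  linear_combination q26 h - 1 * z46 h
theorem z25 (h : Sys B) : B 1 4 3 6 = 0 := by
  linear_combination q25 h - 1 * z43 h
theorem z24 (h : Sys B) : B 0 3 4 6 = 0 := by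
  linear_combination q24 h - 1 * z45 h
theorem z23 (h : Sys B) : B 2 6 3 4 = 0 := by
  linear_combination q23 h - 1 * z46 h
theorem z22 (h : Sys B) : B 1 3 4 6 = 0 := by
  linear_combination q22 h - (-1) * z43 h
theorem z21 (h : Sys B) : B 0 6 3 4 = 0 := by
  linear_combination q21 h - 1 * z45 h
theorem z20 (h : Sys B) : B 0 6 1 5 = 0 := by
  linear_combination q20 h - 1 * z51 h
theorem z19 (h : Sys B) : B 2 4 5 6 = 0 := by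
  linear_combination q19 h
theorem z18 (h : Sys B) : B 3 4 5 6 = 0 := by
  linear_combination q18 h
theorem z17 (h : Sys B) : B 2 5 4 6 = 0 := by
  linear_combination q17 h
theorem z16 (h : Sys B) : B 1 5 4 6 = 0 := by
  linear_combination q16 h
theorem z15 (h : Sys B) : B 1 6 4 5 = 0 := by
  linear_combination q15 h
theorem z14 (h : Sys B) : B 3 6 4 5 = 0 := by
  linear_combination q14 h
theorem z13 (h : Sys B) : B 1 5 3 6 = 0 := by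
  linear_combination q13 h
theorem z12 (h : Sys B) : B 0 2 3 6 = 0 := by
  linear_combination q12 h
theorem z11 (h : Sys B) : B 2 4 3 5 = 0 := by
  linear_combination q11 h
theorem z10 (h : Sys B) : B 1 6 3 5 = 0 := by
  linear_combination q10 h
theorem z9 (h : Sys B) : B 0 2 3 5 = 0 := by
  linear_combination q9 h
theorem z8 (h : Sys B) : B 2 5 3 4 = 0 := by
  linear_combination q8 h
theorem z7 (h : Sys B) : B 0 2 3 4 = 0 := by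
  linear_combination q7 h
theorem z6 (h : Sys B) : B 1 5 2 6 = 0 := by
  linear_combination q6 h
theorem z5 (h : Sys B) : B 0 3 2 6 = 0 := by
  linear_combination q5 h
theorem z4 (h : Sys B) : B 1 6 2 5 = 0 := by
  linear_combination q4 h
theorem z3 (h : Sys B) : B 0 3 2 5 = 0 := by
  linear_combination q3 h
theorem z2 (h : Sys B) : B 0 3 2 4 = 0 := by
  linear_combination q2 h
theorem z1 (h : Sys B) : B 0 2 1 3 = 0 := by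
  linear_combination q1 h
theorem z0 (h : Sys B) : B 0 3 1 2 = 0 := by
  linear_combination q0 h

/-- The 35 increasing quadruples. -/
def quads : List (Fin 7 × Fin 7 × Fin 7 × Fin 7) :=
  [(0, 1, 2, 3), (0, 1, 2, 4), (0, 1, 2, 5), (0, 1, 2, 6), (0, 1, 3, 4), (0, 1, 3, 5), (0, 1, 3, 6), (0, 1, 4, 5), (0, 1, 4, 6), (0, 1, 5, 6), (0, 2, 3, 4), (0, 2, 3, 5), (0, 2, 3, 6), (0, 2, 4, 5), (0, 2, 4, 6), (0, 2, 5, 6), (0, 3, 4, 5), (0, 3, 4, 6), (0, 3, 5, 6), (0, 4, 5, 6), (1, 2, 3, 4), (1, 2, 3, 5), (1, 2, 3, 6), (1, 2, 4, 5), (1, 2, 4, 6), (1, 2, 5, 6), (1, 3, 4, 5), (1, 3, 4, 6), (1, 3, 5, 6), (1, 4, 5, 6), (2, 3, 4, 5), (2, 3, 4, 6), (2, 3, 5, 6), (2, 4, 5, 6), (3, 4, 5, 6)]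

set_option maxRecDepth 100000 in
theorem mem_quads : ∀ a b c d : Fin 7, a < b → b < c → c < d → (a, b, c, d) ∈ quads := by
  decide

theorem sorted_zero (h : Sys B) (a b c d : Fin 7) (h1 : a < b) (h2 : b < c) (h3 : c < d) :
    B a b c d = 0 ∧ B a c b d = 0 ∧ B a d b c = 0 := by
  have hm := mem_quads a b c d h1 h2 h3
  simp only [quads, List.mem_cons, Prod.mk.injEq, List.not_mem_nil, or_false] at hm
  rcases hm with ⟨rfl, rfl, rfl, rfl⟩ | ⟨rfl, rfl, rfl, rfl⟩ | ⟨rfl, rfl, rfl, rfl⟩ | ⟨rfl, rfl, rfl, rfl⟩ | ⟨rfl, rfl, rfl, rfl⟩ | ⟨rfl, rfl, rfl, rfl⟩ | ⟨rfl, rfl, rfl, rfl⟩ | ⟨rfl, rfl, rfl, rfl⟩ | ⟨rfl, rfl, rfl, rfl⟩ | ⟨rfl, rfl, rfl, rfl⟩ | ⟨rfl, rfl, rfl, rfl⟩ | ⟨rfl, rfl, rfl, rfl⟩ | ⟨rfl, rfl, rfl, rfl⟩ | ⟨rfl, rfl, rfl, rfl⟩ | ⟨rfl, rfl, rfl, rfl⟩ | ⟨rfl, rfl, rfl, rfl⟩ | ⟨rfl, rfl, rfl, rfl⟩ | ⟨rfl, rfl, rfl, rfl⟩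 | ⟨rfl, rfl, rfl, rfl⟩ | ⟨rfl, rfl, rfl, rfl⟩ | ⟨rfl, rfl, rfl, rfl⟩ | ⟨rfl, rfl, rfl, rfl⟩ | ⟨rfl, rfl, rfl, rfl⟩ | ⟨rfl, rfl, rfl, rfl⟩ | ⟨rfl, rfl, rfl, rfl⟩ | ⟨rfl, rfl, rfl, rfl⟩ | ⟨rfl, rfl, rfl, rfl⟩ | ⟨rfl, rfl, rfl, rfl⟩ | ⟨rfl, rfl, rfl, rfl⟩ | ⟨rfl, rfl, rfl, rfl⟩ | ⟨rfl, rfl, rfl, rfl⟩ | ⟨rfl, rfl, rfl, rfl⟩ | ⟨rfl, rfl, rfl, rfl⟩ | ⟨rfl, rfl, rfl, rfl⟩ | ⟨rfl, rfl, rfl, rfl⟩
  · exact ⟨z70 h, z1 h, z0 h⟩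
  · exact ⟨z31 h, z40 h, z30 h⟩
  · exact ⟨z88 h, z39 h, z72 h⟩
  · exact ⟨z81 h, z58 h, z69 h⟩
  · exact ⟨z64 h, z60 h, z99 h⟩
  · exact ⟨z95 h, z38 h, z100 h⟩
  · exact ⟨z67 h, z78 h, z84 h⟩
  · exact ⟨z55 h, z33 h, z98 h⟩
  · exact ⟨z76 h, z79 h, z96 h⟩
  · exact ⟨z27 h, z51 h, z20 h⟩
  · exact ⟨z7 h, z2 h, z73 h⟩
  · exact ⟨z9 h, z3 h, z71 h⟩
  · exact ⟨z12 h, z5 h, z47 h⟩
  · exact ⟨z89 h, z28 h, z54 h⟩
  · exact ⟨z65 h, z80 h, z48 h⟩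
  · exact ⟨z91 h, z97 h, z87 h⟩
  · exact ⟨z34 h, z101 h, z66 h⟩
  · exact ⟨z24 h, z45 h, z21 h⟩
  · exact ⟨z36 h, z68 h, z92 h⟩
  · exact ⟨z74 h, z77 h, z86 h⟩
  · exact ⟨z102 h, z61 h, z103 h⟩
  · exact ⟨z94 h, z53 h, z104 h⟩
  · exact ⟨z85 h, z82 h, z62 h⟩
  · exact ⟨z32 h, z29 h, z90 h⟩
  · exact ⟨z56 h, z83 h, z41 h⟩
  · exact ⟨z52 h, z6 h, z4 h⟩
  · exact ⟨z49 h, z93 h, z59 h⟩
  · exact ⟨z22 h, z25 h, z43 h⟩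
  · exact ⟨z50 h, z13 h, z10 h⟩
  · exact ⟨z75 h, z16 h, z15 h⟩
  · exact ⟨z35 h, z11 h, z8 h⟩
  · exact ⟨z26 h, z46 h, z23 h⟩
  · exact ⟨z37 h, z57 h, z63 h⟩
  · exact ⟨z19 h, z17 h, z42 h⟩
  · exact ⟨z18 h, z44 h, z14 h⟩


end Pool.Agent.MP_99eb35_ag
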