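import Pool.Agent.Lib_MP_99eb35_ag.Defs

/-!
Koszul differentials and a criterion for exactness, pure linear algebra over a field.
-/

namespace Pool.Agent.MP_99eb35_ag

open scoped TensorProduct
open Module

variable {k : Type*} [Field k]
variable {W M N : Type*} [AddCommGroup W] [Module k W] [AddCommGroup M] [Module k M]
  [AddCommGroup N] [Module k N]

/-- Auxiliary: for `m : M` and `w : W`, the alternating map
`(a₁, …, a_p) ↦ (a₁ ∧ ⋯ ∧ a_p) ⊗ (w * m)`, linear in `w`. -/
noncomputable def koszulAux (mul : W →ₗ[k] M →ₗ[k] N) (p : ℕ) (m : M) :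
    W →ₗ[k] W [⋀^Fin p]→ₗ[k] ((⋀[k]^p W) ⊗[k] N) where
  toFun w := ((TensorProduct.mk k (⋀[k]^p W) N).flip (mul w m)).compAlternatingMap
    (exteriorPower.ιMulti k p)
  map_add' w w' := by
    ext a
    simp
  map_smul' c w := by
    ext a
    simp

/-- Auxiliary: for `m : M`, the linear map `⋀^{p+1} W → ⋀^p W ⊗ N`,
`w₀ ∧ ⋯ ∧ w_p ↦ ∑ i, (-1)^i (w₀ ∧ ⋯ ŵᵢ ⋯ ∧ w_p) ⊗ (wᵢ * m)`. -/
noncomputable def koszulLin (mul : W →ₗ[k] M →ₗ[k] N) (p : ℕ) (m : M) :
    (⋀[k]^(p + 1) W) →ₗ[k] ((⋀[k]^p W) ⊗[k] N) :=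
  exteriorPower.alternatingMapLinearEquiv (N := (⋀[k]^p W) ⊗[k] N)
    (AlternatingMap.alternatizeUncurryFin (R := k) (M := W) (N := (⋀[k]^p W) ⊗[k] N)
      (koszulAux mul p m))

theorem koszulLin_apply (mul : W →ₗ[k] M →ₗ[k] N) (p : ℕ) (m : M) (a : Fin (p + 1) → W) :
    koszulLin mul p m (exteriorPower.ιMulti k (p + 1) a) =
      ∑ i : Fin (p + 1), (-1 : ℤ) ^ (i : ℕ) •
        (exteriorPower.ιMulti k p (i.removeNth a) ⊗ₜ[k] mul (a i) m) := by
  simp [koszulLin, AlternatingMap.alternatizeUncurryFin_apply, koszulAux]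

/-- The Koszul differential `⋀^{p+1} W ⊗ M → ⋀^p W ⊗ N` of a bilinear map `mul : W × M → N`,
`(w₀ ∧ ⋯ ∧ w_p) ⊗ m ↦ ∑ i, (-1)^i (w₀ ∧ ⋯ ŵᵢ ⋯ ∧ w_p) ⊗ (wᵢ * m)`
(see `koszulD_apply`). -/
noncomputable def koszulD (mul : W →ₗ[k] M →ₗ[k] N) (p : ℕ) :
    ((⋀[k]^(p + 1) W) ⊗[k] M) →ₗ[k] ((⋀[k]^p W) ⊗[k] N) :=
  TensorProduct.lift (LinearMap.flip
    { toFun := koszulLin mul p
      map_add' := fun m m' => by
        apply exteriorPower.linearMap_ext (N := (⋀[k]^p W) ⊗[k] N)
        ext a
        simp [koszulLin_apply, TensorProduct.tmul_add, Finset.sum_add_distrib]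
      map_smul' := fun c m => by
        apply exteriorPower.linearMap_ext (N := (⋀[k]^p W) ⊗[k] N)
        ext a
        simp only [LinearMap.compAlternatingMap_apply, koszulLin_apply, map_smul,
          LinearMap.smul_apply, Finset.smul_sum, TensorProduct.tmul_smul, RingHom.id_apply]
        refine Finset.sum_congr rfl fun i _ => ?_
        exact smul_comm _ _ _ })

theorem koszulD_apply (mul : W →ₗ[k] M →ₗ[k] N) (p : ℕ) (a : Fin (p + 1) → W) (m : M) :
    koszulD mul p (exteriorPower.ιMulti k (p + 1) a ⊗ₜ[k] m) =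
      ∑ i : Fin (p + 1), (-1 : ℤ) ^ (i : ℕ) •
        (exteriorPower.ιMulti k p (i.removeNth a) ⊗ₜ[k] mul (a i) m) := by
  rw [← koszulLin_apply]
  rfl

theorem isKoszulDiff_koszulD (mul : W →ₗ[k] M →ₗ[k] N) (p : ℕ) :
    IsKoszulDiff (k := k) (fun w m => mul w m) p (koszulD mul p) := by
  intro w m
  rw [koszulD_apply]
  refine Finset.sum_congr rfl fun i _ => ?_
  rw [← Int.cast_smul_eq_zsmul k]
  simp

/-- The functional on `⋀^p W ⊗ M` attached to `f₁, …, f_p ∈ W^*` and `g ∈ M^*`. -/
noncomputable def coordFun (p : ℕ) (f : Fin p → Dual k W) (g : Dual k M) :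
    Dual k ((⋀[k]^p W) ⊗[k] M) :=
  TensorProduct.dualDistrib k _ _
    (exteriorPower.pairingDual k W p (exteriorPower.ιMulti k p f) ⊗ₜ[k] g)

theorem coordFun_apply (p : ℕ) (f : Fin p → Dual k W) (g : Dual k M) (a : Fin p → W) (m : M) :
    coordFun p f g (exteriorPower.ιMulti k p a ⊗ₜ[k] m) =
      (Matrix.of fun i j => f j (a i)).det * g m := by
  simp [coordFun]

theorem ext_ιMulti_tmul {P : Type*} [AddCommGroup P] [Module k P] (p : ℕ)
    {F G : ((⋀[k]^p W) ⊗[k] M) →ₗ[k] P}
    (h : ∀ a m, F (exteriorPower.ιMulti k p a ⊗ₜ[k] m) = G (exteriorPower.ιMulti k p a ⊗ₜ[k] m)) :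
    F = G := by
  apply TensorProduct.ext'
  intro x m
  have : (F ∘ₗ (TensorProduct.mk k _ M).flip m) = (G ∘ₗ (TensorProduct.mk k _ M).flip m) := by
    apply exteriorPower.linearMap_ext
    ext a
    simpa using h a m
  exact LinearMap.congr_fun this x

/-- Contracting the image of the Koszul differential. -/
theorem coordFun_koszulLin (mul : W →ₗ[k] M →ₗ[k] N) (p : ℕ) (m : M) (φ : Dual k W)
    (θ : Dual k N) (hθ : ∀ w, θ (mul w m) = φ w) (f : Fin p → Dual k W)
    (x : ⋀[k]^(p + 1) W) :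
    coordFun p f θ (koszulLin mul p m x) =
      exteriorPower.pairingDual k W (p + 1)
        (exteriorPower.ιMulti k (p + 1) (Matrix.vecCons φ f)) x := by
  have : coordFun p f θ ∘ₗ koszulLin mul p m = exteriorPower.pairingDual k W (p + 1)
        (exteriorPower.ιMulti k (p + 1) (Matrix.vecCons φ f)) := by
    apply exteriorPower.linearMap_ext
    ext a
    rw [LinearMap.compAlternatingMap_apply, LinearMap.comp_apply, koszulLin_apply, map_sum,
      LinearMap.compAlternatingMap_apply, exteriorPower.pairingDual_ιMulti_ιMulti,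
      Matrix.det_succ_column_zero]
    refine Finset.sum_congr rfl fun i _ => ?_
    rw [map_zsmul, coordFun_apply, hθ]
    have e : ((Matrix.of fun i j => (Matrix.vecCons φ f : Fin (p + 1) → Dual k W) j (a i)).submatrix
        i.succAbove Fin.succ) = (Matrix.of fun r s => f s (i.removeNth a r)) := by
      ext r s
      simp [Fin.removeNth]
    rw [e]
    simp
    ring
  exact LinearMap.congr_fun this x

theorem coordFun_koszulD (mul : W →ₗ[k] M →ₗ[k] N) (p : ℕ) (φ : Dual k W) (ψ : Dual k M)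
    (θ : Dual k N) (hθ : ∀ w m, θ (mul w m) = φ w * ψ m) (f : Fin p → Dual k W)
    (x : (⋀[k]^(p + 1) W) ⊗[k] M) :
    coordFun p f θ (koszulD mul p x) = coordFun (p + 1) (Matrix.vecCons φ f) ψ x := by
  have : coordFun p f θ ∘ₗ koszulD mul p = coordFun (p + 1) (Matrix.vecCons φ f) ψ := by
    apply ext_ιMulti_tmul
    intro a m
    rw [LinearMap.comp_apply, koszulD_apply, map_sum, coordFun_apply, Matrix.det_succ_column_zero,
      Finset.sum_mul]
    refine Finset.sum_congr rfl fun i _ => ?_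
    rw [map_zsmul, coordFun_apply, hθ]
    have e : ((Matrix.of fun i j => (Matrix.vecCons φ f : Fin (p + 1) → Dual k W) j (a i)).submatrix
        i.succAbove Fin.succ) = (Matrix.of fun r s => f s (i.removeNth a r)) := by
      ext r s
      simp [Fin.removeNth]
    rw [e]
    simp
    ring
  exact LinearMap.congr_fun this x

/-- Multiplication `⋀^p W ⊗ W → ⋀^{p+1} W`, `ω ⊗ w ↦ w ∧ ω`. -/
noncomputable def wedgeMap (p : ℕ) : ((⋀[k]^p W) ⊗[k] W) →ₗ[k] (⋀[k]^(p + 1) W) :=
  TensorProduct.lift (LinearMap.flip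
    ((exteriorPower.alternatingMapLinearEquiv (R := k) (M := W) (N := ⋀[k]^(p + 1) W)
      (n := p)).toLinearMap ∘ₗ AlternatingMap.curryLeft (exteriorPower.ιMulti k (p + 1))))

theorem wedgeMap_apply (p : ℕ) (a : Fin p → W) (w : W) :
    wedgeMap p (exteriorPower.ιMulti k p a ⊗ₜ[k] w) =
      exteriorPower.ιMulti k (p + 1) (Matrix.vecCons w a) := by
  simp [wedgeMap]

theorem pairing_wedgeMap (p : ℕ) (h : Fin (p + 1) → Dual k W) (x : (⋀[k]^p W) ⊗[k] W) :
    exteriorPower.pairingDual k W (p + 1) (exteriorPower.ιMulti k (p + 1) h) (wedgeMap p x) =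
      ∑ j : Fin (p + 1), (-1 : k) ^ (j : ℕ) * coordFun p (j.removeNth h) (h j) x := by
  have : exteriorPower.pairingDual k W (p + 1) (exteriorPower.ιMulti k (p + 1) h) ∘ₗ wedgeMap p =
      ∑ j : Fin (p + 1), (-1 : k) ^ (j : ℕ) • coordFun p (j.removeNth h) (h j) := by
    apply ext_ιMulti_tmul
    intro a w
    rw [LinearMap.comp_apply, wedgeMap_apply, exteriorPower.pairingDual_ιMulti_ιMulti,
      Matrix.det_succ_row_zero, LinearMap.sum_apply]
    refine Finset.sum_congr rfl fun j _ => ?_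
    rw [LinearMap.smul_apply, coordFun_apply, smul_eq_mul]
    have e : ((Matrix.of fun i j => h j ((Matrix.vecCons w a : Fin (p + 1) → W) i)).submatrix
        Fin.succ j.succAbove) = (Matrix.of fun r s => (j.removeNth h) s (a r)) := by
      ext r s
      simp [Fin.removeNth]
    rw [e]
    simp
    ring
  have h2 := LinearMap.congr_fun this x
  simpa using h2

theorem eq_zero_of_coordFun [FiniteDimensional k W] [FiniteDimensional k M] (p : ℕ)
    (x : (⋀[k]^p W) ⊗[k] M)
    (h : ∀ (f : Fin p → Dual k W) (g : Dual k M), coordFun p f g x = 0) : x = 0 := by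
  let b := Module.finBasis k W
  let b' := Module.finBasis k M
  let B := (b.exteriorPower p).tensorProduct b'
  rw [← B.forall_coord_eq_zero_iff]
  rintro ⟨s, j⟩
  have : B.coord (s, j) =
      coordFun p (fun i => b.coord (Set.powersetCard.ofFinEmbEquiv.symm s i)) (b'.coord j) := by
    apply ext_ιMulti_tmul
    intro a m
    rw [coordFun_apply, Basis.coord_apply, Basis.tensorProduct_repr_tmul_apply,
      exteriorPower.basis_repr_apply, exteriorPower.ιMultiDual_apply_ιMulti, smul_eq_mul, mul_comm,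
      Basis.coord_apply]
  rw [this]
  exact h _ _

/-- `coordFun` as an alternating map in the functionals on `W`. -/
noncomputable def coordAlt (p : ℕ) (x : (⋀[k]^p W) ⊗[k] M) :
    (Dual k W) [⋀^Fin p]→ₗ[k] (Dual k M →ₗ[k] k) :=
  ((TensorProduct.curry ((TensorProduct.dualDistrib k (⋀[k]^p W) M).flip x)) ∘ₗ
    exteriorPower.pairingDual k W p).compAlternatingMap (exteriorPower.ιMulti k p)

theorem coordAlt_apply (p : ℕ) (x : (⋀[k]^p W) ⊗[k] M) (f : Fin p → Dual k W) (g : Dual k M) :
    coordAlt p x f g = coordFun p f g x := by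
  simp [coordAlt, coordFun]

theorem coordFun_swap (q : ℕ) (x : (⋀[k]^(q + 1) W) ⊗[k] W)
    (hx : ∀ (g : Dual k W) (f : Fin q → Dual k W),
      coordFun (q + 1) (Matrix.vecCons g f) g x = 0) (g g' : Dual k W) (f : Fin q → Dual k W) :
    coordFun (q + 1) (Matrix.vecCons g f) g' x = - coordFun (q + 1) (Matrix.vecCons g' f) g x := by
  have e : ∀ u v : Dual k W, coordFun (q + 1) (Matrix.vecCons u f) v x =
      (coordAlt (q + 1) x).curryLeft u f v := by
    intro u v
    rw [← coordAlt_apply]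
    rfl
  have h1 := hx (g + g') f
  have h2 := hx g f
  have h3 := hx g' f
  rw [e] at h1 h2 h3
  rw [e, e]
  simp only [map_add, AlternatingMap.add_apply, LinearMap.add_apply] at h1
  linear_combination h1 - h2 - h3

/-- Criterion: an element of `⋀^{q+1} W ⊗ W` all of whose contractions are alternating is a
Koszul boundary (characteristic zero). -/
theorem mem_range_koszulD [CharZero k] [FiniteDimensional k W]
    (mul0 : W →ₗ[k] M →ₗ[k] W) (one : M) (h1 : ∀ w, mul0 w one = w) (q : ℕ)
    (x : (⋀[k]^(q + 1) W) ⊗[k] W)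
    (hx : ∀ (g : Dual k W) (f : Fin q → Dual k W),
      coordFun (q + 1) (Matrix.vecCons g f) g x = 0) :
    x ∈ LinearMap.range (koszulD mul0 (q + 1)) := by
  have key : koszulD mul0 (q + 1) (wedgeMap (q + 1) x ⊗ₜ[k] one) = ((q : k) + 2) • x := by
    rw [← sub_eq_zero]
    apply eq_zero_of_coordFun
    intro f g
    have e1 : koszulD mul0 (q + 1) (wedgeMap (q + 1) x ⊗ₜ[k] one) =
        koszulLin mul0 (q + 1) one (wedgeMap (q + 1) x) := rfl
    rw [map_sub, e1, coordFun_koszulLin mul0 (q + 1) one g g (fun w => by rw [h1]) f,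
      pairing_wedgeMap, Fin.sum_univ_succ]
    have e2 : ∀ j : Fin (q + 1), (-1 : k) ^ ((j.succ : Fin (q + 2)) : ℕ) *
        coordFun (q + 1) (j.succ.removeNth (Matrix.vecCons g f : Fin (q + 2) → Dual k W))
          ((Matrix.vecCons g f : Fin (q + 2) → Dual k W) j.succ) x = coordFun (q + 1) f g x := by
      intro j
      have e3 : (j.succ.removeNth (Matrix.vecCons g f : Fin (q + 2) → Dual k W)) =
          Matrix.vecCons g (j.removeNth f) := by
        ext r
        refine Fin.cases ?_ (fun r => ?_) r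
        · simp [Fin.removeNth]
        · simp [Fin.removeNth]
      rw [e3, Matrix.cons_val_succ, coordFun_swap q x hx]
      have e4 : coordFun (q + 1) f g x =
          (-1 : k) ^ (j : ℕ) * coordFun (q + 1) (Matrix.vecCons (f j) (j.removeNth f)) g x := by
        have := AlternatingMap.map_insertNth (coordAlt (q + 1) x) j (f j) (j.removeNth f)
        rw [Fin.insertNth_self_removeNth] at this
        have h' := congrArg (fun F => F g) this
        simp only [coordAlt_apply] at h'
        rw [h', ← coordAlt_apply]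
        simp
      rw [e4, Fin.val_succ, pow_succ]
      ring
    rw [Finset.sum_congr rfl fun j _ => e2 j]
    have e5 : (Fin.removeNth 0 (Matrix.vecCons g f : Fin (q + 2) → Dual k W)) = f := by
      ext r
      simp [Fin.removeNth]
    rw [e5]
    simp
    ring
  have hne : ((q : k) + 2) ≠ 0 := by
    have : ((q + 2 : ℕ) : k) ≠ 0 := Nat.cast_ne_zero.mpr (by omega)
    simpa using this
  refine ⟨((q : k) + 2)⁻¹ • (wedgeMap (q + 1) x ⊗ₜ[k] one), ?_⟩
  rw [map_smul, key, smul_smul, inv_mul_cancel₀ hne, one_smul]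

theorem koszulAux_add (mul : W →ₗ[k] M →ₗ[k] N) (p : ℕ) (m m' : M) :
    koszulAux mul p (m + m') = koszulAux mul p m + koszulAux mul p m' := by
  ext w a
  simp [koszulAux]

theorem koszulAux_smul (mul : W →ₗ[k] M →ₗ[k] N) (p : ℕ) (c : k) (m : M) :
    koszulAux mul p (c • m) = c • koszulAux mul p m := by
  ext w a
  simp [koszulAux]

/-- Auxiliary: the bilinear family of alternating maps underlying the square of the Koszul
differential. -/
noncomputable def koszulAux2 {M' : Type*} [AddCommGroup M'] [Module k M']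
    (mul : W →ₗ[k] M →ₗ[k] M') (mul' : W →ₗ[k] M' →ₗ[k] N) (p : ℕ) (m : M) :
    W →ₗ[k] W →ₗ[k] W [⋀^Fin p]→ₗ[k] ((⋀[k]^p W) ⊗[k] N) where
  toFun w := koszulAux mul' p (mul w m)
  map_add' w w' := by simp [koszulAux_add]
  map_smul' c w := by simp [koszulAux_smul]

/-- The square of the Koszul differential vanishes. -/
theorem koszulD_koszulD {M' : Type*} [AddCommGroup M'] [Module k M']
    (mul : W →ₗ[k] M →ₗ[k] M') (mul' : W →ₗ[k] M' →ₗ[k] N)
    (hcomm : ∀ w w' m, mul' w (mul w' m) = mul' w' (mul w m)) (p : ℕ)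
    (x : (⋀[k]^(p + 2) W) ⊗[k] M) : koszulD mul' p (koszulD mul (p + 1) x) = 0 := by
  have : koszulD mul' p ∘ₗ koszulD mul (p + 1) = 0 := by
    apply ext_ιMulti_tmul (P := (⋀[k]^p W) ⊗[k] N)
    intro a m
    rw [LinearMap.comp_apply, koszulD_apply, map_sum, LinearMap.zero_apply]
    have h := AlternatingMap.alternatizeUncurryFin_alternatizeUncurryFinLM_comp_of_symmetric
      (R := k) (M := W) (N := (⋀[k]^p W) ⊗[k] N) (f := koszulAux2 mul mul' p m) (by
        intro w w'
        ext b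
        simp [koszulAux2, koszulAux, hcomm w' w])
    have h' := congrArg (fun F => F a) h
    simp only [AlternatingMap.zero_apply] at h'
    rw [← h', AlternatingMap.alternatizeUncurryFin_apply]
    refine Finset.sum_congr rfl fun i _ => ?_
    rw [map_zsmul, koszulD_apply]
    rw [LinearMap.comp_apply, AlternatingMap.alternatizeUncurryFinLM_apply,
      AlternatingMap.alternatizeUncurryFin_apply]
    rfl
  exact LinearMap.congr_fun this x

end Pool.Agent.MP_99eb35_ag
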