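import Pool.Agent.Lib_MP_99eb35_ag.Oct

namespace Pool.Agent.MP_99eb35_ag

open scoped TensorProduct
open Module Polynomial

set_option linter.unusedSectionVars false

variable {k : Type*} [Field k] [CharZero k]

/-- If the seven chord functionals vanish then the section vanishes. -/
theorem octW_eq_zero (w : octW k) (h : ∀ i, octPhi k i w = 0) : w = 0 := by
  have h4 : octRes k 4 w = 0 := h 0
  have h6 : octRes k 6 w = 0 := h 1
  have h7 : octRes k 7 w = 0 := h 2
  have h8 : octRes k 8 w = 0 := h 3
  have h9 : octRes k 9 w = 0 := h 4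
  have h10 : octRes k 10 w = 0 := h 5
  have h11 : octRes k 11 w = 0 := h 6
  have h5 : octRes k 5 w = 0 := by
    linear_combination -vertex3_rel w + h9 + h10 - h7
  have h3 : octRes k 3 w = 0 := by
    linear_combination -vertex5_rel w - h6 - h10 - h11
  have h2 : octRes k 2 w = 0 := by
    linear_combination -vertex4_rel w - h8 - h9 + h11
  have h1 : octRes k 1 w = 0 := by
    linear_combination -vertex2_rel w - h4 + h7 + h8
  have h0 : octRes k 0 w = 0 := by
    linear_combination vertex0_rel w - h1 - h2 - h3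
  have hall : ∀ e : Fin 12, octRes k e w = 0 := by
    intro e
    fin_cases e <;> assumption
  have z0 : pol w 0 = 0 := by
    obtain ⟨a, b, c, d⟩ := vertex0_vals w
    exact quad_zero (octW_deg w 0) (by rw [b, hall, mul_zero]) (by rw [c, hall, mul_zero])
      (by rw [a, hall, mul_zero])
  have z1 : pol w 1 = 0 := by
    obtain ⟨a, b, c, d⟩ := vertex1_vals w
    exact quad_zero (octW_deg w 1) (by rw [b, hall, mul_zero]) (by rw [c, hall, mul_zero])
      (by rw [a, hall, mul_zero])
  have z2 : pol w 2 = 0 := by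
    obtain ⟨a, b, c, d⟩ := vertex2_vals w
    exact quad_zero (octW_deg w 2) (by rw [b, hall, mul_zero]) (by rw [c, hall, mul_zero])
      (by rw [a, hall, mul_zero])
  have z3 : pol w 3 = 0 := by
    obtain ⟨a, b, c, d⟩ := vertex3_vals w
    exact quad_zero (octW_deg w 3) (by rw [b, hall, mul_zero]) (by rw [c, hall, mul_zero])
      (by rw [a, hall, mul_zero])
  have z4 : pol w 4 = 0 := by
    obtain ⟨a, b, c, d⟩ := vertex4_vals w
    exact quad_zero (octW_deg w 4) (by rw [b, hall, mul_zero]) (by rw [c, hall, mul_zero])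
      (by rw [a, hall, mul_zero])
  have z5 : pol w 5 = 0 := by
    obtain ⟨a, b, c, d⟩ := vertex5_vals w
    exact quad_zero (octW_deg w 5) (by rw [b, hall, mul_zero]) (by rw [c, hall, mul_zero])
      (by rw [a, hall, mul_zero])
  have hi : ∀ i : Fin 6, pol w i = 0 := by
    intro i
    fin_cases i <;> assumption
  apply Subtype.ext
  funext i
  exact hi i

theorem octPhi_span : Submodule.span k (Set.range (octPhi k)) = ⊤ := by
  rw [eq_top_iff]
  intro g _
  apply mem_span_of_iInf_ker_le_ker
  intro w hw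
  have : w = 0 := by
    apply octW_eq_zero
    intro i
    have := (Submodule.mem_iInf _).mp hw i
    simpa using this
  rw [this]
  exact Submodule.zero_mem _

theorem kills_of_mul (x : (⋀[k]^3 (octW k)) ⊗[k] (octW k))
    (hx : koszulD ((oct k).mulOmega 1) 2 x = 0) (P : Dual k (octW k))
    (θ : Dual k ((oct k).omega 2).Sec)
    (hθ : ∀ w m : octW k, θ ((oct k).mulOmega 1 w m) = P w * P m) : Kills x P := by
  intro f
  have h := coordFun_koszulD ((oct k).mulOmega 1) 2 P P θ hθ f x
  refine h.symm.trans ?_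
  exact (congrArg (coordFun 2 f θ) hx).trans (map_zero _)

theorem kills_res (x : (⋀[k]^3 (octW k)) ⊗[k] (octW k))
    (hx : koszulD ((oct k).mulOmega 1) 2 x = 0) (e : Fin 12) : Kills x (octRes k e) := by
  apply kills_of_mul x hx _ (((octR e false : k)⁻¹ * (octR e false : k)⁻¹) •
    LineCurve.evFun ((oct k).omega 2) (octComp e false) (octPt e false : k))
  intro w m
  change ((octR e false : k)⁻¹ * (octR e false : k)⁻¹) *
    ((pol w (octComp e false) * pol m (octComp e false)).eval (octPt e false : k)) = _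
  rw [octRes_apply, octRes_apply, Polynomial.eval_mul]
  ring

theorem kills_co (x : (⋀[k]^3 (octW k)) ⊗[k] (octW k))
    (hx : koszulD ((oct k).mulOmega 1) 2 x = 0) (v : Fin 6) : Kills x (octCo k v) := by
  apply kills_of_mul x hx _ (LineCurve.coFun ((oct k).omega 2) v 4)
  intro w m
  change (pol w v * pol m v).coeff 4 = _
  rw [octCo_apply, octCo_apply]
  have hd : ∀ w : octW k, (pol w v).natDegree ≤ 2 := by
    intro w
    have h := octW_deg w v
    rw [Polynomial.mem_degreeLT] at h
    rcases eq_or_ne (pol w v) 0 with h0 | h0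
    · rw [h0]; simp
    rw [Polynomial.degree_eq_natDegree h0] at h
    have : (pol w v).natDegree < 3 := by exact_mod_cast h
    omega
  exact Polynomial.coeff_mul_add_eq_of_natDegree_le (hd w) (hd m)

/-- The constant section `1`. -/
noncomputable def octOne (k : Type*) [Field k] [CharZero k] : ((oct k).omega 0).Sec :=
  ⟨fun _ => 1, fun _ => by
    rw [Polynomial.mem_degreeLT]
    have : ∀ i, (((oct k).omega 0).deg i + 1).toNat = 1 := by
      intro i
      change ((((0 : ℕ) : ℤ) * (oct k).omegaDeg _) + 1).toNat = 1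
      simp
    rw [this]
    exact lt_of_le_of_lt Polynomial.degree_one_le (by exact_mod_cast Nat.one_pos), fun e _ => by
    simp [LineCurve.omega]⟩

/-- Multiplication `H⁰(ω) × H⁰(𝒪) → H⁰(ω)`. -/
noncomputable def octMul0 (k : Type*) [Field k] [CharZero k] :
    octW k →ₗ[k] ((oct k).omega 0).Sec →ₗ[k] octW k :=
  (oct k).mulOmega 0

theorem octMul0_one (w : octW k) : octMul0 k w (octOne k) = w := by
  apply Subtype.ext
  change (fun i => w.1 i * 1) = w.1
  funext i
  rw [mul_one]

theorem oct_exact (x : (⋀[k]^3 (octW k)) ⊗[k] (octW k))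
    (hx : koszulD ((oct k).mulOmega 1) 2 x = 0) : x ∈ LinearMap.range (koszulD (octMul0 k) 3) :=
  exact_of_kills (octMul0 k) (octOne k) octMul0_one x (octPhi k)
    octPhi_span (fun i => kills_res x hx _)
    (octP7 (k := k) ▸ kills_res x hx 0) (octP8 (k := k) ▸ kills_res x hx 1)
    (octP9 (k := k) ▸ kills_res x hx 2) (octP10 (k := k) ▸ kills_res x hx 3)
    (octP11 (k := k) ▸ kills_res x hx 5)
    (octP12 (k := k) ▸ kills_co x hx 0) (octP13 (k := k) ▸ kills_co x hx 1)
    (octP14 (k := k) ▸ kills_co x hx 2) (octP15 (k := k) ▸ kills_co x hx 3)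
    (octP16 (k := k) ▸ kills_co x hx 4) (octP17 (k := k) ▸ kills_co x hx 5)

theorem oct_koszulVanishes : (oct k).KoszulVanishes 2 0 := by
  refine ⟨koszulD ((oct k).mulOmega 0) 3, koszulD ((oct k).mulOmega 1) 2,
    isKoszulDiff_koszulD ((oct k).mulOmega 0) 3, isKoszulDiff_koszulD ((oct k).mulOmega 1) 2, ?_⟩
  intro x
  constructor
  · intro hx
    exact oct_exact x hx
  · rintro ⟨y, rfl⟩
    exact koszulD_koszulD ((oct k).mulOmega 0) ((oct k).mulOmega 1) (fun w w' m => by
      apply Subtype.ext
      change w.1 * (w'.1 * m.1) = w'.1 * (w.1 * m.1)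
      ring) 2 y

end Pool.Agent.MP_99eb35_ag
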