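import Pool.Agent.Lib_MP_99eb35_ag.Criterion

namespace Pool.Agent.MP_99eb35_ag

open scoped TensorProduct
open Module

variable {k : Type*} [Field k]
variable {W M : Type*} [AddCommGroup W] [Module k W] [AddCommGroup M] [Module k M]

/-- A functional `P` at which all contractions of `x` vanish. -/
def Kills (x : (⋀[k]^3 W) ⊗[k] W) (P : Dual k W) : Prop :=
  ∀ f : Fin 2 → Dual k W, coordFun 3 (Matrix.vecCons P f) P x = 0

theorem sys_of_kills (x : (⋀[k]^3 W) ⊗[k] W) (φ : Fin 7 → Dual k W)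
    (h0 : ∀ i, Kills x (φ i))
    (h7 : Kills x ((1 : k) • φ 0 + (1 : k) • φ 1 + ((-1) : k) • φ 2 + (1 : k) • φ 4 + (1 : k) • φ 5))
    (h8 : Kills x (((-1) : k) • φ 0 + (1 : k) • φ 2 + (1 : k) • φ 3))
    (h9 : Kills x (((-1) : k) • φ 3 + ((-1) : k) • φ 4 + (1 : k) • φ 6))
    (h10 : Kills x (((-1) : k) • φ 1 + ((-1) : k) • φ 5 + ((-1) : k) • φ 6))
    (h11 : Kills x (((-1) : k) • φ 2 + (1 : k) • φ 4 + (1 : k) • φ 5))
    (h12 : Kills x ((1 : k) • φ 0 + ((-2) : k) • φ 1 + ((-1) : k) • φ 2 + ((-2) : k) • φ 3 + ((-1) : k) • φ 4 + ((-2) : k) • φ 5 + ((-1) : k) • φ 6))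
    (h13 : Kills x ((1 : k) • φ 0 + (2 : k) • φ 1 + ((-3) : k) • φ 2 + (3 : k) • φ 4 + (3 : k) • φ 5))
    (h14 : Kills x (((-1) : k) • φ 0 + ((-2) : k) • φ 2 + ((-1) : k) • φ 3))
    (h15 : Kills x (((-1) : k) • φ 2 + ((-1) : k) • φ 4 + ((-2) : k) • φ 5))
    (h16 : Kills x ((2 : k) • φ 3 + (3 : k) • φ 4 + ((-1) : k) • φ 6))
    (h17 : Kills x ((2 : k) • φ 1 + (1 : k) • φ 5 + (3 : k) • φ 6)) :
    Sys (fun i l s t => coordAlt 3 x ![φ i, φ s, φ t] (φ l) +
      coordAlt 3 x ![φ l, φ s, φ t] (φ i)) := by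
  set A := coordAlt 3 x with hA
  have hdiag : ∀ i s t, A ![φ i, φ s, φ t] (φ i) = 0 := by
    intro i s t
    rw [hA, coordAlt_apply]
    exact h0 i ![φ s, φ t]
  have lin1 : ∀ (s t : Fin 7) (u v : Dual k W), A ![u + v, φ s, φ t] =
      A ![u, φ s, φ t] + A ![v, φ s, φ t] := fun s t u v => A.map_vecCons_add _ _ _
  have lin2 : ∀ (s t : Fin 7) (c : k) (v : Dual k W), A ![c • v, φ s, φ t] =
      c • A ![v, φ s, φ t] := fun s t c v => A.map_vecCons_smul _ _ _
  refine
    { sym := fun i l j m => add_comm _ _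
      alt := fun i l j m => ?_
      diag0 := fun i l m => by simp [hdiag]
      diag := fun i l m => ?_
      cyc := fun i j l m => ?_
      p7 := fun s t => ?_
      p8 := fun s t => ?_
      p9 := fun s t => ?_
      p10 := fun s t => ?_
      p11 := fun s t => ?_
      p12 := fun s t => ?_
      p13 := fun s t => ?_
      p14 := fun s t => ?_
      p15 := fun s t => ?_
      p16 := fun s t => ?_
      p17 := fun s t => ?_ }
  · rw [alt3_swap12 A (φ i) (φ j), alt3_swap12 A (φ l) (φ j)]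
    simp only [LinearMap.neg_apply]
    ring
  · have e1 : A ![φ i, φ i, φ m] = 0 :=
      A.map_eq_zero_of_eq _ (show ![φ i, φ i, φ m] 0 = ![φ i, φ i, φ m] 1 by simp)
        (by decide)
    rw [e1, alt3_swap01, LinearMap.neg_apply, hdiag]
    simp
  · rw [alt3_swap01 A (φ j) (φ i) (φ m), alt3_swap01 A (φ l) (φ i) (φ m),
      alt3_swap01 A (φ l) (φ j) (φ m)]
    simp only [LinearMap.neg_apply]
    ring
  · have h := h7 ![φ s, φ t]
    rw [← coordAlt_apply, ← hA] at h
    simp only [lin1, lin2, map_add, map_smul, LinearMap.add_apply, LinearMap.smul_apply,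
      smul_eq_mul, hdiag, mul_zero, add_zero, zero_add] at h
    linear_combination h
  · have h := h8 ![φ s, φ t]
    rw [← coordAlt_apply, ← hA] at h
    simp only [lin1, lin2, map_add, map_smul, LinearMap.add_apply, LinearMap.smul_apply,
      smul_eq_mul, hdiag, mul_zero, add_zero, zero_add] at h
    linear_combination h
  · have h := h9 ![φ s, φ t]
    rw [← coordAlt_apply, ← hA] at h
    simp only [lin1, lin2, map_add, map_smul, LinearMap.add_apply, LinearMap.smul_apply,
      smul_eq_mul, hdiag, mul_zero, add_zero, zero_add] at h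
    linear_combination h
  · have h := h10 ![φ s, φ t]
    rw [← coordAlt_apply, ← hA] at h
    simp only [lin1, lin2, map_add, map_smul, LinearMap.add_apply, LinearMap.smul_apply,
      smul_eq_mul, hdiag, mul_zero, add_zero, zero_add] at h
    linear_combination h
  · have h := h11 ![φ s, φ t]
    rw [← coordAlt_apply, ← hA] at h
    simp only [lin1, lin2, map_add, map_smul, LinearMap.add_apply, LinearMap.smul_apply,
      smul_eq_mul, hdiag, mul_zero, add_zero, zero_add] at h
    linear_combination h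
  · have h := h12 ![φ s, φ t]
    rw [← coordAlt_apply, ← hA] at h
    simp only [lin1, lin2, map_add, map_smul, LinearMap.add_apply, LinearMap.smul_apply,
      smul_eq_mul, hdiag, mul_zero, add_zero, zero_add] at h
    linear_combination h
  · have h := h13 ![φ s, φ t]
    rw [← coordAlt_apply, ← hA] at h
    simp only [lin1, lin2, map_add, map_smul, LinearMap.add_apply, LinearMap.smul_apply,
      smul_eq_mul, hdiag, mul_zero, add_zero, zero_add] at h
    linear_combination h
  · have h := h14 ![φ s, φ t]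
    rw [← coordAlt_apply, ← hA] at h
    simp only [lin1, lin2, map_add, map_smul, LinearMap.add_apply, LinearMap.smul_apply,
      smul_eq_mul, hdiag, mul_zero, add_zero, zero_add] at h
    linear_combination h
  · have h := h15 ![φ s, φ t]
    rw [← coordAlt_apply, ← hA] at h
    simp only [lin1, lin2, map_add, map_smul, LinearMap.add_apply, LinearMap.smul_apply,
      smul_eq_mul, hdiag, mul_zero, add_zero, zero_add] at h
    linear_combination h
  · have h := h16 ![φ s, φ t]
    rw [← coordAlt_apply, ← hA] at h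
    simp only [lin1, lin2, map_add, map_smul, LinearMap.add_apply, LinearMap.smul_apply,
      smul_eq_mul, hdiag, mul_zero, add_zero, zero_add] at h
    linear_combination h
  · have h := h17 ![φ s, φ t]
    rw [← coordAlt_apply, ← hA] at h
    simp only [lin1, lin2, map_add, map_smul, LinearMap.add_apply, LinearMap.smul_apply,
      smul_eq_mul, hdiag, mul_zero, add_zero, zero_add] at h
    linear_combination h

/-- Exactness criterion: if the contractions of `x` vanish at eighteen functionals in the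
position of the eighteen chosen points of the octahedral curve, then `x` is a Koszul boundary. -/
theorem exact_of_kills [CharZero k] [FiniteDimensional k W]
    (mul0 : W →ₗ[k] M →ₗ[k] W) (one : M) (h1 : ∀ w, mul0 w one = w)
    (x : (⋀[k]^3 W) ⊗[k] W) (φ : Fin 7 → Dual k W)
    (hφ : Submodule.span k (Set.range φ) = ⊤)
    (h0 : ∀ i, Kills x (φ i))
    (h7 : Kills x ((1 : k) • φ 0 + (1 : k) • φ 1 + ((-1) : k) • φ 2 + (1 : k) • φ 4 + (1 : k) • φ 5))
    (h8 : Kills x (((-1) : k) • φ 0 + (1 : k) • φ 2 + (1 : k) • φ 3))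
    (h9 : Kills x (((-1) : k) • φ 3 + ((-1) : k) • φ 4 + (1 : k) • φ 6))
    (h10 : Kills x (((-1) : k) • φ 1 + ((-1) : k) • φ 5 + ((-1) : k) • φ 6))
    (h11 : Kills x (((-1) : k) • φ 2 + (1 : k) • φ 4 + (1 : k) • φ 5))
    (h12 : Kills x ((1 : k) • φ 0 + ((-2) : k) • φ 1 + ((-1) : k) • φ 2 + ((-2) : k) • φ 3 + ((-1) : k) • φ 4 + ((-2) : k) • φ 5 + ((-1) : k) • φ 6))
    (h13 : Kills x ((1 : k) • φ 0 + (2 : k) • φ 1 + ((-3) : k) • φ 2 + (3 : k) • φ 4 + (3 : k) • φ 5))
    (h14 : Kills x (((-1) : k) • φ 0 + ((-2) : k) • φ 2 + ((-1) : k) • φ 3))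
    (h15 : Kills x (((-1) : k) • φ 2 + ((-1) : k) • φ 4 + ((-2) : k) • φ 5))
    (h16 : Kills x ((2 : k) • φ 3 + (3 : k) • φ 4 + ((-1) : k) • φ 6))
    (h17 : Kills x ((2 : k) • φ 1 + (1 : k) • φ 5 + (3 : k) • φ 6)) :
    x ∈ LinearMap.range (koszulD mul0 3) := by
  have hS := sys_of_kills x φ h0 h7 h8 h9 h10 h11 h12 h13 h14 h15 h16 h17
  apply mem_range_koszulD mul0 one h1 2 x
  intro g f
  have hz := alt_ext (coordAlt 3 x) φ hφ (fun i l s t => all_zero hS i l s t) g g (f 0) (f 1)
  have e : (Matrix.vecCons g f : Fin 3 → Dual k W) = ![g, f 0, f 1] := by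
    ext i
    fin_cases i <;> simp
  rw [e, ← coordAlt_apply]
  have h2 : (2 : k) * coordAlt 3 x ![g, f 0, f 1] g = 0 := by linear_combination hz
  exact (mul_eq_zero.mp h2).resolve_left two_ne_zero

end Pool.Agent.MP_99eb35_ag
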