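import Pool.Agent.Lib_MP_99eb35_ag.Basic
import Pool.Agent.Lib_MP_99eb35_ag.Points

namespace Pool.Agent.MP_99eb35_ag

open scoped TensorProduct
open Module Polynomial

/-- The components through the nodes of the octahedral curve. -/
def octComp : Fin 12 → Bool → Fin 6
  | e, false => ![0, 0, 0, 0, 1, 1, 1, 2, 2, 3, 3, 4] e
  | e, true => ![1, 2, 4, 5, 2, 3, 5, 3, 4, 4, 5, 5] e

/-- The coordinates of the branches of the nodes of the octahedral curve. -/
def octPt : Fin 12 → Bool → ℤ
  | e, false => ![0, -1, 1, 2, 0, 2, 1, -1, 0, 0, -1, 1] e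
  | e, true => ![-1, 1, 2, 2, 2, 1, 0, 2, 0, -1, 1, -1] e

theorem octComp_ne : ∀ e, octComp e false ≠ octComp e true := by decide

theorem octPt_inj : ∀ e b e' b', octComp e b = octComp e' b' → octPt e b = octPt e' b' →
    e = e' ∧ b = b' := by decide

/-- The octahedral curve. -/
def oct (k : Type*) [Field k] [CharZero k] : LineCurve k where
  Comp := Fin 6
  Node := Fin 12
  comp := octComp
  pt e b := (octPt e b : k)
  comp_ne := octComp_ne
  pt_inj e b e' b' h1 h2 := octPt_inj e b e' b' h1 (Int.cast_injective h2)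

/-- Values of `diffProd`. -/
def octR : Fin 12 → Bool → ℤ
  | e, false => ![2, -6, -2, 6, 2, 6, -2, -6, 2, 2, -6, -2] e
  | e, true => ![-6, -2, 6, 6, 6, -2, 2, 6, 2, -6, -2, -6] e

theorem octR_eq : ∀ e s, ∏ x ∈ (Finset.univ.filter fun x : Fin 12 × Bool =>
    octComp x.1 x.2 = octComp e s).erase (e, s), (octPt e s - octPt x.1 x.2) = octR e s := by
  decide

set_option linter.unusedSectionVars false

set_option linter.unusedSectionVars false

set_option linter.unusedSectionVars false

variable {k : Type*} [Field k] [CharZero k]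

theorem oct_diffProd (e : Fin 12) (s : Bool) : (oct k).diffProd e s = (octR e s : k) := by
  rw [← octR_eq e s, Int.cast_prod]
  simp only [Int.cast_sub]
  rfl

theorem oct_omegaDeg (i : Fin 6) : (oct k).omegaDeg i = 2 := by
  have : ∀ i : Fin 6, (((Finset.univ.filter fun x : Fin 12 × Bool =>
    octComp x.1 x.2 = i).card : ℕ) : ℤ) - 2 = 2 := by decide
  exact this i

theorem oct_inter : ∀ B : Finset (Fin 6), B.Nonempty → B ≠ Finset.univ →
    4 ≤ ∑ i ∈ B, ((((Finset.univ.filter fun x : Fin 12 × Bool =>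
    octComp x.1 x.2 = i).card : ℕ) : ℤ) - 2) - (2 * (1 - ((B.card : ℤ) -
    (((Finset.univ.filter fun e : Fin 12 => octComp e false ∈ B ∧ octComp e true ∈ B).card : ℕ)
      : ℤ))) - 2) := by
  decide

theorem oct_connected : ∀ B : Finset (Fin 6), B.Nonempty → B ≠ Finset.univ →
    ∃ e, (octComp e false ∈ B ∧ octComp e true ∉ B) ∨
      (octComp e false ∉ B ∧ octComp e true ∈ B) := by
  decide

/-- Evaluation of sections at a point of a component. -/
noncomputable def LineCurve.evFun {C : LineCurve k} (F : LineCurve.TFSheaf C) (i : C.Comp) (x : k) :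
    Dual k F.Sec where
  toFun f := (f.1 i).eval x
  map_add' _ _ := Polynomial.eval_add
  map_smul' _ _ := Polynomial.eval_smul _ _ _

/-- A coefficient of sections on a component. -/
noncomputable def LineCurve.coFun {C : LineCurve k} (F : LineCurve.TFSheaf C) (i : C.Comp)
    (n : ℕ) : Dual k F.Sec where
  toFun f := (f.1 i).coeff n
  map_add' _ _ := Polynomial.coeff_add _ _ _
  map_smul' _ _ := Polynomial.coeff_smul _ _ _

theorem quad_form {p : k[X]} (hp : p ∈ Polynomial.degreeLT k 3) :
    ∃ a b c : k, p = Polynomial.C a + Polynomial.C b * X + Polynomial.C c * X ^ 2 := by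
  refine ⟨p.coeff 0, p.coeff 1, p.coeff 2, ?_⟩
  rw [Polynomial.mem_degreeLT] at hp
  have h : p.natDegree ≤ 2 := by
    rcases eq_or_ne p 0 with rfl | h0
    · simp
    rw [Polynomial.degree_eq_natDegree h0] at hp
    have : p.natDegree < 3 := by exact_mod_cast hp
    omega
  ext n
  rcases n with _ | _ | _ | n
  · simp
  · simp
  · simp [Polynomial.coeff_X]
  · rw [Polynomial.coeff_eq_zero_of_natDegree_lt (by omega)]
    simp [Polynomial.coeff_X, Polynomial.coeff_C]

/-- The canonical space. -/
noncomputable abbrev octW (k : Type*) [Field k] [CharZero k] : Type _ :=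
  ((oct k).omega 1).Sec

/-- The polynomials of a section. -/
def pol (w : octW k) : Fin 6 → k[X] := w.1

theorem octW_deg (w : octW k) (i : Fin 6) : pol w i ∈ Polynomial.degreeLT k 3 := by
  have h := w.2.1 i
  have e : ((((oct k).omega 1).deg i) + 1).toNat = 3 := by
    change (((1 : ℕ) : ℤ) * (oct k).omegaDeg i + 1).toNat = 3
    rw [oct_omegaDeg]
    rfl
  rw [e] at h
  exact h

theorem octW_glue (w : octW k) (e : Fin 12) :
    (pol w (octComp e true)).eval (octPt e true : k) =
      (-(octR e true : k) / (octR e false : k)) *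
        (pol w (octComp e false)).eval (octPt e false : k) := by
  have h := w.2.2 e (Finset.mem_univ _)
  have g : ((oct k).omega 1).glue e = -(octR e true : k) / (octR e false : k) := by
    change (-((oct k).diffProd e true) / (oct k).diffProd e false) ^ 1 = _
    rw [oct_diffProd, oct_diffProd, pow_one]
  rw [g] at h
  exact h

/-- The residue functional at a node. -/
noncomputable def octRes (k : Type*) [Field k] [CharZero k] (e : Fin 12) : Dual k (octW k) :=
  ((octR e false : k))⁻¹ • LineCurve.evFun ((oct k).omega 1) (octComp e false) (octPt e false : k)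

theorem octRes_apply (e : Fin 12) (w : octW k) :
    octRes k e w = (octR e false : k)⁻¹ * (pol w (octComp e false)).eval (octPt e false : k) := rfl

theorem octR_ne (e : Fin 12) (b : Bool) : (octR e b : k) ≠ 0 := by
  have : ∀ e b, octR e b ≠ 0 := by decide
  exact_mod_cast this e b

theorem evF (w : octW k) (e : Fin 12) :
    (pol w (octComp e false)).eval (octPt e false : k) = (octR e false : k) * octRes k e w := by
  rw [octRes_apply, mul_inv_cancel_left₀ (octR_ne e false)]

theorem evT (w : octW k) (e : Fin 12) :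
    (pol w (octComp e true)).eval (octPt e true : k) = - (octR e true : k) * octRes k e w := by
  rw [octW_glue, octRes_apply]
  have := octR_ne (k := k) e false
  field_simp

theorem quad_rel1 {p : k[X]} (hp : p ∈ Polynomial.degreeLT k 3) :
    p.eval 0 * 3 - p.eval 1 * 3 - p.eval (-1) + p.eval 2 = 0 := by
  obtain ⟨a, b, c, rfl⟩ := quad_form hp
  simp
  ring

theorem quad_rel2 {p : k[X]} (hp : p ∈ Polynomial.degreeLT k 3) :
    6 * p.coeff 2 = -3 * p.eval 1 + p.eval (-1) + 2 * p.eval 2 := by
  obtain ⟨a, b, c, rfl⟩ := quad_form hp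
  simp [Polynomial.coeff_X, Polynomial.coeff_C]
  ring

theorem quad_zero {p : k[X]} (hp : p ∈ Polynomial.degreeLT k 3) (h0 : p.eval 0 = 0)
    (h1 : p.eval 1 = 0) (h2 : p.eval (-1) = 0) : p = 0 := by
  obtain ⟨a, b, c, rfl⟩ := quad_form hp
  simp at h0 h1 h2
  have hc : c = 0 := by linear_combination (1/2) * h1 + (1/2) * h2 - h0
  have hb : b = 0 := by linear_combination (1/2) * h1 - (1/2) * h2
  simp [h0, hb, hc]

theorem vertex0_vals (w : octW k) :
    (pol w 0).eval (-1 : k) = (-6 : k) * octRes k 1 w ∧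
    (pol w 0).eval (0 : k) = (2 : k) * octRes k 0 w ∧
    (pol w 0).eval (1 : k) = (-2 : k) * octRes k 2 w ∧
    (pol w 0).eval (2 : k) = (6 : k) * octRes k 3 w := by
  refine ⟨?_, ?_, ?_, ?_⟩
  · have h := evF w 1
    simpa [octComp, octPt, octR] using h
  · have h := evF w 0
    simpa [octComp, octPt, octR] using h
  · have h := evF w 2
    simpa [octComp, octPt, octR] using h
  · have h := evF w 3
    simpa [octComp, octPt, octR] using h
theorem vertex0_rel (w : octW k) : (1 : k) * octRes k 0 w + (1 : k) * octRes k 1 w + (1 : k) * octRes k 2 w + (1 : k) * octRes k 3 w = 0 := by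
  obtain ⟨h1, h2, h3, h4⟩ := vertex0_vals w
  have h := quad_rel1 (octW_deg w 0)
  rw [h1, h2, h3, h4] at h
  linear_combination (1/6) * h
theorem vertex0_co (w : octW k) : (pol w 0).coeff 2 = (0 : k) * octRes k 0 w + (-1 : k) * octRes k 1 w + (1 : k) * octRes k 2 w + (2 : k) * octRes k 3 w := by
  obtain ⟨h1, h2, h3, h4⟩ := vertex0_vals w
  have h := quad_rel2 (octW_deg w 0)
  rw [h1, h3, h4] at h
  linear_combination (1/6) * h

theorem vertex1_vals (w : octW k) :
    (pol w 1).eval (-1 : k) = (6 : k) * octRes k 0 w ∧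
    (pol w 1).eval (0 : k) = (2 : k) * octRes k 4 w ∧
    (pol w 1).eval (1 : k) = (-2 : k) * octRes k 6 w ∧
    (pol w 1).eval (2 : k) = (6 : k) * octRes k 5 w := by
  refine ⟨?_, ?_, ?_, ?_⟩
  · have h := evT w 0
    simpa [octComp, octPt, octR] using h
  · have h := evF w 4
    simpa [octComp, octPt, octR] using h
  · have h := evF w 6
    simpa [octComp, octPt, octR] using h
  · have h := evF w 5
    simpa [octComp, octPt, octR] using h
theorem vertex1_rel (w : octW k) : (-1 : k) * octRes k 0 w + (1 : k) * octRes k 4 w + (1 : k) * octRes k 5 w + (1 : k) * octRes k 6 w = 0 := by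
  obtain ⟨h1, h2, h3, h4⟩ := vertex1_vals w
  have h := quad_rel1 (octW_deg w 1)
  rw [h1, h2, h3, h4] at h
  linear_combination (1/6) * h
theorem vertex1_co (w : octW k) : (pol w 1).coeff 2 = (1 : k) * octRes k 0 w + (0 : k) * octRes k 4 w + (2 : k) * octRes k 5 w + (1 : k) * octRes k 6 w := by
  obtain ⟨h1, h2, h3, h4⟩ := vertex1_vals w
  have h := quad_rel2 (octW_deg w 1)
  rw [h1, h3, h4] at h
  linear_combination (1/6) * h

theorem vertex2_vals (w : octW k) :
    (pol w 2).eval (-1 : k) = (-6 : k) * octRes k 7 w ∧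
    (pol w 2).eval (0 : k) = (2 : k) * octRes k 8 w ∧
    (pol w 2).eval (1 : k) = (2 : k) * octRes k 1 w ∧
    (pol w 2).eval (2 : k) = (-6 : k) * octRes k 4 w := by
  refine ⟨?_, ?_, ?_, ?_⟩
  · have h := evF w 7
    simpa [octComp, octPt, octR] using h
  · have h := evF w 8
    simpa [octComp, octPt, octR] using h
  · have h := evT w 1
    simpa [octComp, octPt, octR] using h
  · have h := evT w 4
    simpa [octComp, octPt, octR] using h
theorem vertex2_rel (w : octW k) : (-1 : k) * octRes k 1 w + (-1 : k) * octRes k 4 w + (1 : k) * octRes k 7 w + (1 : k) * octRes k 8 w = 0 := by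
  obtain ⟨h1, h2, h3, h4⟩ := vertex2_vals w
  have h := quad_rel1 (octW_deg w 2)
  rw [h1, h2, h3, h4] at h
  linear_combination (1/6) * h
theorem vertex2_co (w : octW k) : (pol w 2).coeff 2 = (-1 : k) * octRes k 1 w + (-2 : k) * octRes k 4 w + (-1 : k) * octRes k 7 w + (0 : k) * octRes k 8 w := by
  obtain ⟨h1, h2, h3, h4⟩ := vertex2_vals w
  have h := quad_rel2 (octW_deg w 2)
  rw [h1, h3, h4] at h
  linear_combination (1/6) * h

theorem vertex3_vals (w : octW k) :
    (pol w 3).eval (-1 : k) = (-6 : k) * octRes k 10 w ∧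
    (pol w 3).eval (0 : k) = (2 : k) * octRes k 9 w ∧
    (pol w 3).eval (1 : k) = (2 : k) * octRes k 5 w ∧
    (pol w 3).eval (2 : k) = (-6 : k) * octRes k 7 w := by
  refine ⟨?_, ?_, ?_, ?_⟩
  · have h := evF w 10
    simpa [octComp, octPt, octR] using h
  · have h := evF w 9
    simpa [octComp, octPt, octR] using h
  · have h := evT w 5
    simpa [octComp, octPt, octR] using h
  · have h := evT w 7
    simpa [octComp, octPt, octR] using h
theorem vertex3_rel (w : octW k) : (-1 : k) * octRes k 5 w + (-1 : k) * octRes k 7 w + (1 : k) * octRes k 9 w + (1 : k) * octRes k 10 w = 0 := by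
  obtain ⟨h1, h2, h3, h4⟩ := vertex3_vals w
  have h := quad_rel1 (octW_deg w 3)
  rw [h1, h2, h3, h4] at h
  linear_combination (1/6) * h
theorem vertex3_co (w : octW k) : (pol w 3).coeff 2 = (-1 : k) * octRes k 5 w + (-2 : k) * octRes k 7 w + (0 : k) * octRes k 9 w + (-1 : k) * octRes k 10 w := by
  obtain ⟨h1, h2, h3, h4⟩ := vertex3_vals w
  have h := quad_rel2 (octW_deg w 3)
  rw [h1, h3, h4] at h
  linear_combination (1/6) * h

theorem vertex4_vals (w : octW k) :
    (pol w 4).eval (-1 : k) = (6 : k) * octRes k 9 w ∧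
    (pol w 4).eval (0 : k) = (-2 : k) * octRes k 8 w ∧
    (pol w 4).eval (1 : k) = (-2 : k) * octRes k 11 w ∧
    (pol w 4).eval (2 : k) = (-6 : k) * octRes k 2 w := by
  refine ⟨?_, ?_, ?_, ?_⟩
  · have h := evT w 9
    simpa [octComp, octPt, octR] using h
  · have h := evT w 8
    simpa [octComp, octPt, octR] using h
  · have h := evF w 11
    simpa [octComp, octPt, octR] using h
  · have h := evT w 2
    simpa [octComp, octPt, octR] using h
theorem vertex4_rel (w : octW k) : (-1 : k) * octRes k 2 w + (-1 : k) * octRes k 8 w + (-1 : k) * octRes k 9 w + (1 : k) * octRes k 11 w = 0 := by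
  obtain ⟨h1, h2, h3, h4⟩ := vertex4_vals w
  have h := quad_rel1 (octW_deg w 4)
  rw [h1, h2, h3, h4] at h
  linear_combination (1/6) * h
theorem vertex4_co (w : octW k) : (pol w 4).coeff 2 = (-2 : k) * octRes k 2 w + (0 : k) * octRes k 8 w + (1 : k) * octRes k 9 w + (1 : k) * octRes k 11 w := by
  obtain ⟨h1, h2, h3, h4⟩ := vertex4_vals w
  have h := quad_rel2 (octW_deg w 4)
  rw [h1, h3, h4] at h
  linear_combination (1/6) * h

theorem vertex5_vals (w : octW k) :
    (pol w 5).eval (-1 : k) = (6 : k) * octRes k 11 w ∧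
    (pol w 5).eval (0 : k) = (-2 : k) * octRes k 6 w ∧
    (pol w 5).eval (1 : k) = (2 : k) * octRes k 10 w ∧
    (pol w 5).eval (2 : k) = (-6 : k) * octRes k 3 w := by
  refine ⟨?_, ?_, ?_, ?_⟩
  · have h := evT w 11
    simpa [octComp, octPt, octR] using h
  · have h := evT w 6
    simpa [octComp, octPt, octR] using h
  · have h := evT w 10
    simpa [octComp, octPt, octR] using h
  · have h := evT w 3
    simpa [octComp, octPt, octR] using h
theorem vertex5_rel (w : octW k) : (-1 : k) * octRes k 3 w + (-1 : k) * octRes k 6 w + (-1 : k) * octRes k 10 w + (-1 : k) * octRes k 11 w = 0 := by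
  obtain ⟨h1, h2, h3, h4⟩ := vertex5_vals w
  have h := quad_rel1 (octW_deg w 5)
  rw [h1, h2, h3, h4] at h
  linear_combination (1/6) * h
theorem vertex5_co (w : octW k) : (pol w 5).coeff 2 = (-2 : k) * octRes k 3 w + (0 : k) * octRes k 6 w + (-1 : k) * octRes k 10 w + (1 : k) * octRes k 11 w := by
  obtain ⟨h1, h2, h3, h4⟩ := vertex5_vals w
  have h := quad_rel2 (octW_deg w 5)
  rw [h1, h3, h4] at h
  linear_combination (1/6) * h

/-- The seven chord functionals. -/
noncomputable def octPhi (k : Type*) [Field k] [CharZero k] (i : Fin 7) : Dual k (octW k) :=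
  octRes k (![4, 6, 7, 8, 9, 10, 11] i)

/-- The leading coefficient functional on a component. -/
noncomputable def octCo (k : Type*) [Field k] [CharZero k] (i : Fin 6) : Dual k (octW k) :=
  LineCurve.coFun ((oct k).omega 1) i 2

theorem octCo_apply (i : Fin 6) (w : octW k) : octCo k i w = (pol w i).coeff 2 := rfl

theorem octPhi_apply (i : Fin 7) (w : octW k) : octPhi k i w = octRes k (![4, 6, 7, 8, 9, 10, 11] i) w := rfl

theorem octP7 : octRes k 0 = (1 : k) • octPhi k 0 + (1 : k) • octPhi k 1 + ((-1) : k) • octPhi k 2 + (1 : k) • octPhi k 4 + (1 : k) • octPhi k 5 := by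
  ext w
  simp only [LinearMap.add_apply, LinearMap.smul_apply, smul_eq_mul, octPhi_apply]
  simp only [Matrix.cons_val]
  linear_combination ((-1)) * vertex1_rel w + ((-1)) * vertex3_rel w
theorem octP8 : octRes k 1 = ((-1) : k) • octPhi k 0 + (1 : k) • octPhi k 2 + (1 : k) • octPhi k 3 := by
  ext w
  simp only [LinearMap.add_apply, LinearMap.smul_apply, smul_eq_mul, octPhi_apply]
  simp only [Matrix.cons_val]
  linear_combination ((-1)) * vertex2_rel w
theorem octP9 : octRes k 2 = ((-1) : k) • octPhi k 3 + ((-1) : k) • octPhi k 4 + (1 : k) • octPhi k 6 := by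
  ext w
  simp only [LinearMap.add_apply, LinearMap.smul_apply, smul_eq_mul, octPhi_apply]
  simp only [Matrix.cons_val]
  linear_combination ((-1)) * vertex4_rel w
theorem octP10 : octRes k 3 = ((-1) : k) • octPhi k 1 + ((-1) : k) • octPhi k 5 + ((-1) : k) • octPhi k 6 := by
  ext w
  simp only [LinearMap.add_apply, LinearMap.smul_apply, smul_eq_mul, octPhi_apply]
  simp only [Matrix.cons_val]
  linear_combination (1) * vertex0_rel w + (1) * vertex1_rel w + (1) * vertex2_rel w + (1) * vertex3_rel w + (1) * vertex4_rel w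
theorem octP11 : octRes k 5 = ((-1) : k) • octPhi k 2 + (1 : k) • octPhi k 4 + (1 : k) • octPhi k 5 := by
  ext w
  simp only [LinearMap.add_apply, LinearMap.smul_apply, smul_eq_mul, octPhi_apply]
  simp only [Matrix.cons_val]
  linear_combination ((-1)) * vertex3_rel w
theorem octP12 : octCo k 0 = (1 : k) • octPhi k 0 + ((-2) : k) • octPhi k 1 + ((-1) : k) • octPhi k 2 + ((-2) : k) • octPhi k 3 + ((-1) : k) • octPhi k 4 + ((-2) : k) • octPhi k 5 + ((-1) : k) • octPhi k 6 := by
  ext w
  simp only [LinearMap.add_apply, LinearMap.smul_apply, smul_eq_mul, octPhi_apply]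
  simp only [Matrix.cons_val]
  rw [octCo_apply]
  linear_combination vertex0_co w + (2) * vertex0_rel w + (2) * vertex1_rel w + (3) * vertex2_rel w + (2) * vertex3_rel w + (1) * vertex4_rel w
theorem octP13 : octCo k 1 = (1 : k) • octPhi k 0 + (2 : k) • octPhi k 1 + ((-3) : k) • octPhi k 2 + (3 : k) • octPhi k 4 + (3 : k) • octPhi k 5 := by
  ext w
  simp only [LinearMap.add_apply, LinearMap.smul_apply, smul_eq_mul, octPhi_apply]
  simp only [Matrix.cons_val]
  rw [octCo_apply]
  linear_combination vertex1_co w + ((-1)) * vertex1_rel w + ((-3)) * vertex3_rel w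
theorem octP14 : octCo k 2 = ((-1) : k) • octPhi k 0 + ((-2) : k) • octPhi k 2 + ((-1) : k) • octPhi k 3 := by
  ext w
  simp only [LinearMap.add_apply, LinearMap.smul_apply, smul_eq_mul, octPhi_apply]
  simp only [Matrix.cons_val]
  rw [octCo_apply]
  linear_combination vertex2_co w + (1) * vertex2_rel w
theorem octP15 : octCo k 3 = ((-1) : k) • octPhi k 2 + ((-1) : k) • octPhi k 4 + ((-2) : k) • octPhi k 5 := by
  ext w
  simp only [LinearMap.add_apply, LinearMap.smul_apply, smul_eq_mul, octPhi_apply]
  simp only [Matrix.cons_val]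
  rw [octCo_apply]
  linear_combination vertex3_co w + (1) * vertex3_rel w
theorem octP16 : octCo k 4 = (2 : k) • octPhi k 3 + (3 : k) • octPhi k 4 + ((-1) : k) • octPhi k 6 := by
  ext w
  simp only [LinearMap.add_apply, LinearMap.smul_apply, smul_eq_mul, octPhi_apply]
  simp only [Matrix.cons_val]
  rw [octCo_apply]
  linear_combination vertex4_co w + (2) * vertex4_rel w
theorem octP17 : octCo k 5 = (2 : k) • octPhi k 1 + (1 : k) • octPhi k 5 + (3 : k) • octPhi k 6 := by
  ext w
  simp only [LinearMap.add_apply, LinearMap.smul_apply, smul_eq_mul, octPhi_apply]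
  simp only [Matrix.cons_val]
  rw [octCo_apply]
  linear_combination vertex5_co w + ((-2)) * vertex0_rel w + ((-2)) * vertex1_rel w + ((-2)) * vertex2_rel w + ((-2)) * vertex3_rel w + ((-2)) * vertex4_rel w

end Pool.Agent.MP_99eb35_ag
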